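import Pool.Agent.Q296.TC.TwoSets

/-!
# Graphs without induced banner (a 4-cycle with a pendant edge)
-/

namespace Pool.Agent.Q296.TC

set_option linter.unusedSectionVars false

open Finset

variable {V : Type*} [Fintype V] [DecidableEq V] {G : SimpleGraph V} [DecidableRel G.Adj]

/-- a weighted double count -/
theorem cross_count (X Y : Finset V) (α β : ℚ) (hα : 0 < α) (hβ : 0 < β)
    (hX : ∀ w ∈ Y, ∀ x ∈ X, ∀ x' ∈ X, G.Adj w x → G.Adj w x' → x ≠ x' → G.Adj x x')
    (hY : ∀ x ∈ X, ∀ w ∈ Y, ∀ w' ∈ Y, G.Adj x w → G.Adj x w' → w ≠ w' → G.Adj w w') :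
    2 * (α * β) * ∑ x ∈ X, ((Y.filter fun w => G.Adj x w).card : ℚ)
      ≤ α ^ 2 * ((X.card : ℚ) + (e2 G X : ℚ)) + β ^ 2 * ((Y.card : ℚ) + (e2 G Y : ℚ)) := by
  -- degrees across
  let m : V → ℚ := fun x => ((Y.filter fun w => G.Adj x w).card : ℚ)
  let k : V → ℚ := fun w => ((X.filter fun x => G.Adj w x).card : ℚ)
  let p : V → ℚ := fun x => 1 + ((∑ y ∈ X, A G x y : ℤ) : ℚ)
  let r : V → ℚ := fun w => 1 + ((∑ y ∈ Y, A G w y : ℤ) : ℚ)
  have gen : ∀ (Z : Finset V) (x w : V), x ∈ Z → G.Adj w x →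
      (∀ x' ∈ Z, G.Adj w x' → x ≠ x' → G.Adj x x') →
      ((Z.filter fun x => G.Adj w x).card : ℚ) ≤ 1 + ((∑ y ∈ Z, A G x y : ℤ) : ℚ) := by
    intro Z x w _ _ hcl
    have hsub : (Z.filter fun x => G.Adj w x) ⊆ insert x (Z.filter fun y => G.Adj x y) := by
      intro x' hx'
      obtain ⟨hz, ha⟩ := Finset.mem_filter.mp hx'
      by_cases e : x' = x
      · simp [e]
      · simp [hz, hcl x' hz ha (Ne.symm e)]
    have h1 := Finset.card_le_card hsub
    have h2 : (insert x (Z.filter fun y => G.Adj x y)).card ≤ (Z.filter fun y => G.Adj x y).card + 1 :=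
      Finset.card_insert_le _ _
    have h3 : (∑ y ∈ Z, A G x y : ℤ) = ((Z.filter fun y => G.Adj x y).card : ℤ) := by
      unfold A; rw [Finset.sum_boole]
    rw [h3]
    have h4 : (Z.filter fun x => G.Adj w x).card ≤ 1 + (Z.filter fun y => G.Adj x y).card := by omega
    exact_mod_cast h4
  have hp1 : ∀ x, 0 < p x := by
    intro x
    have : (0 : ℚ) ≤ ((∑ y ∈ X, A G x y : ℤ) : ℚ) := by
      exact_mod_cast Finset.sum_nonneg fun y _ => A_nonneg G x y
    show 0 < 1 + ((∑ y ∈ X, A G x y : ℤ) : ℚ)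
    linarith
  have hr1 : ∀ x, 0 < r x := by
    intro x
    have : (0 : ℚ) ≤ ((∑ y ∈ Y, A G x y : ℤ) : ℚ) := by
      exact_mod_cast Finset.sum_nonneg fun y _ => A_nonneg G x y
    show 0 < 1 + ((∑ y ∈ Y, A G x y : ℤ) : ℚ)
    linarith
  -- first sum
  have s1 : ∑ x ∈ X, ∑ w ∈ Y.filter (fun w => G.Adj x w), k w / m x ≤ ∑ x ∈ X, p x := by
    refine Finset.sum_le_sum fun x hx => ?_
    rcases (Y.filter fun w => G.Adj x w).eq_empty_or_nonempty with he | hne
    · rw [he]; simpa using (hp1 x).le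
    · have hm : 0 < m x := by
        show (0 : ℚ) < ((Y.filter fun w => G.Adj x w).card : ℚ)
        exact_mod_cast Finset.card_pos.mpr hne
      have : ∀ w ∈ Y.filter (fun w => G.Adj x w), k w / m x ≤ p x / m x := by
        intro w hw
        obtain ⟨hwY, hxw⟩ := Finset.mem_filter.mp hw
        refine div_le_div_of_nonneg_right ?_ hm.le
        exact gen X x w hx hxw.symm fun x' hx' ha hne' => hX w hwY x hx x' hx' hxw.symm ha hne'
      calc ∑ w ∈ Y.filter (fun w => G.Adj x w), k w / m x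
          ≤ ∑ _w ∈ Y.filter (fun w => G.Adj x w), p x / m x := Finset.sum_le_sum this
        _ = m x * (p x / m x) := by rw [Finset.sum_const, nsmul_eq_mul]
        _ = p x := by field_simp
  have s2 : ∑ w ∈ Y, ∑ x ∈ X.filter (fun x => G.Adj w x), m x / k w ≤ ∑ w ∈ Y, r w := by
    refine Finset.sum_le_sum fun w hw => ?_
    rcases (X.filter fun x => G.Adj w x).eq_empty_or_nonempty with he | hne
    · rw [he]; simpa using (hr1 w).le
    · have hk : 0 < k w := by
        show (0 : ℚ) < ((X.filter fun x => G.Adj w x).card : ℚ)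
        exact_mod_cast Finset.card_pos.mpr hne
      have : ∀ x ∈ X.filter (fun x => G.Adj w x), m x / k w ≤ r w / k w := by
        intro x hx
        obtain ⟨hxX, hwx⟩ := Finset.mem_filter.mp hx
        refine div_le_div_of_nonneg_right ?_ hk.le
        exact gen Y w x hw hwx.symm fun w' hw' ha hne' => hY x hxX w hw w' hw' hwx.symm ha hne'
      calc ∑ x ∈ X.filter (fun x => G.Adj w x), m x / k w
          ≤ ∑ _x ∈ X.filter (fun x => G.Adj w x), r w / k w := Finset.sum_le_sum this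
        _ = k w * (r w / k w) := by rw [Finset.sum_const, nsmul_eq_mul]
        _ = r w := by field_simp
  have hcomm : ∑ w ∈ Y, ∑ x ∈ X.filter (fun x => G.Adj w x), m x / k w
      = ∑ x ∈ X, ∑ w ∈ Y.filter (fun w => G.Adj x w), m x / k w := by
    refine Finset.sum_comm' ?_
    intro w x
    simp only [Finset.mem_filter]
    constructor
    · rintro ⟨a, b, c⟩; exact ⟨⟨a, c.symm⟩, b⟩
    · rintro ⟨⟨a, c⟩, b⟩; exact ⟨a, b, c.symm⟩
  rw [hcomm] at s2
  have s3 : 2 * (α * β) * ∑ x ∈ X, m x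
      ≤ α ^ 2 * ∑ x ∈ X, ∑ w ∈ Y.filter (fun w => G.Adj x w), k w / m x
        + β ^ 2 * ∑ x ∈ X, ∑ w ∈ Y.filter (fun w => G.Adj x w), m x / k w := by
    rw [Finset.mul_sum, Finset.mul_sum, Finset.mul_sum, ← Finset.sum_add_distrib]
    refine Finset.sum_le_sum fun x hx => ?_
    rw [Finset.mul_sum, Finset.mul_sum, ← Finset.sum_add_distrib]
    have : 2 * (α * β) * m x = ∑ _w ∈ Y.filter (fun w => G.Adj x w), 2 * (α * β) := by
      rw [Finset.sum_const, nsmul_eq_mul]; ring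
    rw [this]
    refine Finset.sum_le_sum fun w hw => ?_
    obtain ⟨hwY, hxw⟩ := Finset.mem_filter.mp hw
    have hm : 0 < m x := by
      show (0 : ℚ) < ((Y.filter fun w => G.Adj x w).card : ℚ)
      exact_mod_cast Finset.card_pos.mpr ⟨w, hw⟩
    have hk : 0 < k w := by
      show (0 : ℚ) < ((X.filter fun x => G.Adj w x).card : ℚ)
      exact_mod_cast Finset.card_pos.mpr ⟨x, Finset.mem_filter.mpr ⟨hx, hxw.symm⟩⟩
    have hkey : α ^ 2 * (k w / m x) + β ^ 2 * (m x / k w) - 2 * (α * β)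
        = (α * k w - β * m x) ^ 2 / (k w * m x) := by
      field_simp
      ring
    have : 0 ≤ (α * k w - β * m x) ^ 2 / (k w * m x) := by positivity
    linarith
  have e1 : ∑ x ∈ X, p x = (X.card : ℚ) + (e2 G X : ℚ) := by
    show ∑ x ∈ X, (1 + ((∑ y ∈ X, A G x y : ℤ) : ℚ)) = _
    rw [Finset.sum_add_distrib, Finset.sum_const, nsmul_eq_mul, mul_one]
    unfold e2
    push_cast
    rfl
  have e3 : ∑ x ∈ Y, r x = (Y.card : ℚ) + (e2 G Y : ℚ) := by
    show ∑ x ∈ Y, (1 + ((∑ y ∈ Y, A G x y : ℤ) : ℚ)) = _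
    rw [Finset.sum_add_distrib, Finset.sum_const, nsmul_eq_mul, mul_one]
    unfold e2
    push_cast
    rfl
  rw [e1] at s1
  rw [e3] at s2
  have t1 := mul_le_mul_of_nonneg_left s1 (sq_nonneg α)
  have t2 := mul_le_mul_of_nonneg_left s2 (sq_nonneg β)
  exact s3.trans (add_le_add t1 t2)

/-- far vertices with clique-like cross neighbourhoods -/
theorem UO.no_far_of_cross (h : UO G) {u v : V} (huv : u ≠ v)
    (h1 : ¬ G.Adj u v) (h2 : ∀ w, G.Adj u w → ¬ G.Adj w v)
    (hD : ∀ x w w', G.Adj v x → G.Adj u w → G.Adj u w' → G.Adj x w → G.Adj x w' → w ≠ w' →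
      G.Adj w w')
    (hC : ∀ w x x', G.Adj u w → G.Adj v x → G.Adj v x' → G.Adj w x → G.Adj w x' → x ≠ x' →
      G.Adj x x') : False := by
  have hp : 2 ≤ Fintype.card V := by
    have := Finset.card_le_univ ({u, v} : Finset V)
    rwa [Finset.card_pair huv] at this
  have hdisj : Disjoint (Nb G u) (Nb G v) := by
    rw [Finset.disjoint_left]
    intro w hw hw'
    rcases mem_Nb.1 hw with rfl | hw <;> rcases mem_Nb.1 hw' with e | hw'
    · exact huv e
    · exact h1 hw'.symm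
    · exact h1 (e ▸ hw)
    · exact h2 w hw hw'.symm
  have hαpos : (0 : ℤ) < (Nb G u).card := by
    exact_mod_cast Finset.card_pos.mpr ⟨u, mem_Nb.2 (Or.inl rfl)⟩
  have hβpos : (0 : ℤ) < (Nb G v).card := by
    exact_mod_cast Finset.card_pos.mpr ⟨v, mem_Nb.2 (Or.inl rfl)⟩
  have hαq : (0 : ℚ) < (Nb G u).card := by exact_mod_cast hαpos
  have hβq : (0 : ℚ) < (Nb G v).card := by exact_mod_cast hβpos
  -- the cross sum
  have hWeq : ∑ x ∈ Nb G u, ∑ y ∈ Nb G v, A G x y
      = ∑ x ∈ No G v, ((((No G u).filter fun w => G.Adj x w).card : ℕ) : ℤ) := by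
    have hv : v ∉ No G v := by rw [mem_No]; exact G.loopless.irrefl v
    have hu : u ∉ No G u := by rw [mem_No]; exact G.loopless.irrefl u
    have hNv : Nb G v = insert v (No G v) := rfl
    have hNu : Nb G u = insert u (No G u) := rfl
    rw [Finset.sum_comm, hNv, Finset.sum_insert hv]
    have z1 : ∑ x ∈ Nb G u, A G x v = 0 := by
      refine Finset.sum_eq_zero fun z hz => ?_
      unfold A; rw [if_neg]
      intro hadj
      rcases mem_Nb.1 hz with hz' | hz'
      · exact h1 (hz' ▸ hadj)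
      · exact h2 z hz' hadj
    rw [z1, zero_add]
    refine Finset.sum_congr rfl fun x hx => ?_
    rw [hNu, Finset.sum_insert hu]
    have z2 : A G u x = 0 := by
      unfold A; rw [if_neg]
      intro hadj
      exact h2 x hadj (mem_No.1 hx).symm
    rw [z2, zero_add]
    unfold A
    rw [Finset.sum_boole]
    congr 2
    ext w; simp only [Finset.mem_filter]
    constructor
    · rintro ⟨a, b⟩; exact ⟨a, b.symm⟩
    · rintro ⟨a, b⟩; exact ⟨a, b.symm⟩
  have hcc := cross_count (G := G) (No G v) (No G u) ((Nb G u).card : ℚ) ((Nb G v).card : ℚ)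
    hαq hβq
    (fun w hw x hx x' hx' a b c => hC w x x' (mem_No.1 hw) (mem_No.1 hx) (mem_No.1 hx') a b c)
    (fun x hx w hw w' hw' a b c => hD x w w' (mem_No.1 hx) (mem_No.1 hw) (mem_No.1 hw') a b c)
  have hccZ : 2 * (((Nb G u).card : ℤ) * (Nb G v).card) * (∑ x ∈ Nb G u, ∑ y ∈ Nb G v, A G x y)
      ≤ ((Nb G u).card : ℤ) ^ 2 * (((No G v).card : ℤ) + e2 G (No G v))
        + ((Nb G v).card : ℤ) ^ 2 * (((No G u).card : ℤ) + e2 G (No G u)) := by
    rw [hWeq]
    exact_mod_cast hcc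
  rw [card_No, card_No] at hccZ
  have key := h.two_sets (X := Nb G u) (Y := Nb G v) ⟨u, mem_Nb.2 (Or.inl rfl)⟩
    ⟨v, mem_Nb.2 (Or.inl rfl)⟩ hdisj
  rw [e2_Nb_eq, e2_Nb_eq] at key
  have vu := h.vertex hp u
  have vv := h.vertex hp v
  have hE := e2_nonneg (G := G) univ
  have hpp : 0 < pp V := by unfold pp; exact_mod_cast (by omega : 0 < Fintype.card V)
  generalize ((Nb G u).card : ℤ) = α at *
  generalize ((Nb G v).card : ℤ) = β at *
  generalize (∑ x ∈ Nb G u, ∑ y ∈ Nb G v, A G x y) = W at *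
  generalize e2 G (No G u) = eB at *
  generalize e2 G (No G v) = eA at *
  generalize dg G u = b at *
  generalize dg G v = a at *
  generalize pp V = p at *
  generalize e2 G univ = E at *
  have l6 : (α * β) * E ≤ p * (β ^ 2 * b + α ^ 2 * a) := by
    have t1 : β ^ 2 * E ≤ β ^ 2 * (2 * p * b) := mul_le_mul_of_nonneg_left vu.le (sq_nonneg β)
    have t2 : α ^ 2 * E ≤ α ^ 2 * (2 * p * a) := mul_le_mul_of_nonneg_left vv.le (sq_nonneg α)
    have t4 : 2 * (α * β) * E ≤ (α ^ 2 + β ^ 2) * E :=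
      mul_le_mul_of_nonneg_right (by nlinarith [sq_nonneg (α - β)]) hE
    nlinarith
  have l8 := mul_le_mul_of_nonneg_left hccZ hpp.le
  nlinarith

/-- no induced banner: a 4-cycle `a b c d` with a pendant edge `a e` -/
def BannerFree {W : Type*} (H : SimpleGraph W) : Prop :=
  ∀ a b c d e : W, H.Adj a b → H.Adj b c → H.Adj c d → H.Adj d a → H.Adj a e →
    a ≠ c → b ≠ d → e ≠ b → e ≠ c → e ≠ d →
    H.Adj a c ∨ H.Adj b d ∨ H.Adj e b ∨ H.Adj e c ∨ H.Adj e d

theorem UO.no_far_of_banner (h : UO G) (hG : BannerFree G) {u v : V} (huv : u ≠ v)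
    (h1 : ¬ G.Adj u v) (h2 : ∀ w, G.Adj u w → ¬ G.Adj w v) : False := by
  have hgen : ∀ u v : V, u ≠ v → ¬ G.Adj u v → (∀ w, G.Adj u w → ¬ G.Adj w v) →
      ∀ x w w', G.Adj v x → G.Adj u w → G.Adj u w' → G.Adj x w → G.Adj x w' → w ≠ w' →
      G.Adj w w' := by
    intro u v huv h1 h2 x w w' hvx huw huw' hxw hxw' hne
    have hux : ¬ G.Adj u x := fun h' => h2 x h' hvx.symm
    have hxu : x ≠ u := fun e => h1 (e ▸ hvx).symm
    have hvw : ¬ G.Adj v w := fun h' => h2 w huw h'.symm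
    have hvw' : ¬ G.Adj v w' := fun h' => h2 w' huw' h'.symm
    rcases hG x w u w' v hxw huw.symm huw' hxw'.symm hvx.symm hxu hne
      (fun e => h1 (e ▸ huw)) huv.symm (fun e => h1 (e ▸ huw')) with h' | h' | h' | h' | h'
    · exact absurd h'.symm hux
    · exact h'
    · exact absurd h' hvw
    · exact absurd h'.symm h1
    · exact absurd h' hvw'
  refine h.no_far_of_cross huv h1 h2 (hgen u v huv h1 h2) ?_
  intro w x x' huw hvx hvx' hwx hwx' hne
  exact hgen v u huv.symm (fun h' => h1 h'.symm) (fun z hz hz' => h2 z hz'.symm hz.symm)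
    w x x' huw hvx hvx' hwx hwx' hne

end Pool.Agent.Q296.TC
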