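import Mathlib

/-!
# Splitting a vertex set: the quadratic form behind `e(S)/|S| + e(T)/|T|`
-/

namespace Pool.Agent.Q296.TC

set_option linter.unusedSectionVars false

open Finset

variable {V : Type*} [Fintype V] [DecidableEq V] (G : SimpleGraph V) [DecidableRel G.Adj]

/-- adjacency indicator -/
def A (x y : V) : ℤ := if G.Adj x y then 1 else 0

omit [Fintype V] [DecidableEq V] in
theorem A_symm (x y : V) : A G x y = A G y x := by
  unfold A
  by_cases h : G.Adj x y
  · rw [if_pos h, if_pos h.symm]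
  · rw [if_neg h, if_neg (fun h' => h h'.symm)]

omit [Fintype V] [DecidableEq V] in
theorem A_nonneg (x y : V) : 0 ≤ A G x y := by
  unfold A; split_ifs <;> norm_num

omit [Fintype V] [DecidableEq V] in
theorem A_le_one (x y : V) : A G x y ≤ 1 := by
  unfold A; split_ifs <;> norm_num

omit [Fintype V] [DecidableEq V] in
theorem A_self (x : V) : A G x x = 0 := by
  unfold A; simp

/-- twice the number of edges inside `S` -/
def e2 (S : Finset V) : ℤ := ∑ x ∈ S, ∑ y ∈ S, A G x y

/-- degree -/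
def dg (x : V) : ℤ := ∑ y, A G x y

/-- number of vertices -/
def pp (V : Type*) [Fintype V] : ℤ := (Fintype.card V : ℤ)

/-- the coefficients of the form -/
def q (v w : V) : ℤ :=
  pp V ^ 2 * A G v w - pp V * (dg G v + dg G w) + e2 G univ

/-- the form -/
def Q (x : V → ℤ) : ℤ := ∑ v, ∑ w, q G v w * (x v * x w)

theorem q_symm (v w : V) : q G v w = q G w v := by
  unfold q; rw [A_symm G v w]; ring

theorem sum_dg : ∑ v, dg G v = e2 G univ := rfl

theorem q_row (v : V) : ∑ w, q G v w = 0 := by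
  unfold q
  rw [Finset.sum_add_distrib, Finset.sum_sub_distrib, ← Finset.mul_sum, ← Finset.mul_sum,
    Finset.sum_add_distrib, sum_dg]
  simp only [Finset.sum_const, Finset.card_univ, nsmul_eq_mul]
  have : ∑ i, A G v i = dg G v := rfl
  rw [this]
  unfold pp
  ring

/-- `V` is strictly better than every split. -/
def UO : Prop := ∀ S : Finset V, S.Nonempty → Sᶜ.Nonempty →
  (e2 G S : ℚ) / S.card + (e2 G Sᶜ : ℚ) / Sᶜ.card < (e2 G univ : ℚ) / Fintype.card V

theorem e2_compl (S : Finset V) :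
    e2 G Sᶜ = e2 G univ - 2 * ∑ x ∈ S, dg G x + e2 G S := by
  have h1 : ∀ (f : V → ℤ), ∑ x ∈ Sᶜ, f x = ∑ x, f x - ∑ x ∈ S, f x := by
    intro f
    have := Finset.sum_add_sum_compl S f
    linarith
  unfold e2
  rw [h1]
  simp_rw [h1]
  rw [Finset.sum_sub_distrib, Finset.sum_sub_distrib]
  have h2 : ∑ x, ∑ y ∈ S, A G x y = ∑ x ∈ S, dg G x := by
    rw [Finset.sum_comm]
    unfold dg
    refine Finset.sum_congr rfl fun y _ => Finset.sum_congr rfl fun x _ => A_symm G x y
  have h3 : ∑ x ∈ S, ∑ y, A G x y = ∑ x ∈ S, dg G x := rfl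
  rw [h2, h3]
  ring

variable {G}

/-- the form on indicator vectors -/
theorem UO.set_neg (h : UO G) (S : Finset V) (hS : S.Nonempty) (hT : Sᶜ.Nonempty) :
    pp V ^ 2 * e2 G S - 2 * pp V * S.card * ∑ x ∈ S, dg G x + (S.card : ℤ) ^ 2 * e2 G univ < 0 := by
  have h0 := h S hS hT
  have hs : (0 : ℚ) < S.card := by exact_mod_cast hS.card_pos
  have ht : (0 : ℚ) < Sᶜ.card := by exact_mod_cast hT.card_pos
  have hst : ((S.card : ℚ)) + Sᶜ.card = Fintype.card V := by
    have := Finset.card_add_card_compl S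
    exact_mod_cast this
  have hp : (0 : ℚ) < Fintype.card V := by linarith
  rw [e2_compl] at h0
  push_cast at h0
  rw [div_add_div _ _ hs.ne' ht.ne', div_lt_div_iff₀ (by positivity) hp] at h0
  have key : ((pp V ^ 2 * e2 G S - 2 * pp V * S.card * ∑ x ∈ S, dg G x
      + (S.card : ℤ) ^ 2 * e2 G univ : ℤ) : ℚ) < 0 := by
    unfold pp
    push_cast
    have ht' : (Sᶜ.card : ℚ) = Fintype.card V - S.card := by linarith
    rw [ht'] at h0
    nlinarith [h0]
  exact_mod_cast key

theorem Q_parallelogram (x z : V → ℤ) :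
    Q G (x + z) + Q G (x - z) = 2 * Q G x + 2 * Q G z := by
  unfold Q
  rw [← Finset.sum_add_distrib, Finset.mul_sum, Finset.mul_sum, ← Finset.sum_add_distrib]
  refine Finset.sum_congr rfl fun v _ => ?_
  rw [← Finset.sum_add_distrib, Finset.mul_sum, Finset.mul_sum, ← Finset.sum_add_distrib]
  refine Finset.sum_congr rfl fun w _ => ?_
  simp only [Pi.add_apply, Pi.sub_apply]
  ring

theorem Q_pair {a b : V} (h : ¬ G.Adj a b) :
    Q G (Pi.single a 1 - Pi.single b 1) = 0 := by
  have hA : A G a b = 0 := by unfold A; rw [if_neg h]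
  unfold Q
  have : ∀ v, ∑ w, q G v w * ((Pi.single a 1 - Pi.single b 1 : V → ℤ) v
      * (Pi.single a 1 - Pi.single b 1 : V → ℤ) w)
      = (Pi.single a 1 - Pi.single b 1 : V → ℤ) v * (q G v a - q G v b) := by
    intro v
    have e1 : ∀ w, q G v w * ((Pi.single a 1 - Pi.single b 1 : V → ℤ) v
      * (Pi.single a 1 - Pi.single b 1 : V → ℤ) w)
      = (Pi.single a 1 - Pi.single b 1 : V → ℤ) v * (q G v w * (Pi.single a (1:ℤ) : V → ℤ) w)
        - (Pi.single a 1 - Pi.single b 1 : V → ℤ) v * (q G v w * (Pi.single b (1:ℤ) : V → ℤ) w) := by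
      intro w
      simp only [Pi.sub_apply]
      ring
    simp_rw [e1]
    rw [Finset.sum_sub_distrib, ← Finset.mul_sum, ← Finset.mul_sum]
    have e2 : ∀ c : V, ∑ w, q G v w * (Pi.single c (1:ℤ) : V → ℤ) w = q G v c := by
      intro c
      rw [Finset.sum_eq_single c]
      · simp
      · intro w _ hw; simp [Pi.single_eq_of_ne hw]
      · simp
    rw [e2, e2]; ring
  simp_rw [this]
  have e3 : ∀ v, (Pi.single a 1 - Pi.single b 1 : V → ℤ) v * (q G v a - q G v b)
      = (Pi.single a (1:ℤ) : V → ℤ) v * (q G v a - q G v b)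
        - (Pi.single b (1:ℤ) : V → ℤ) v * (q G v a - q G v b) := by
    intro v; simp only [Pi.sub_apply]; ring
  simp_rw [e3]
  rw [Finset.sum_sub_distrib]
  have e4 : ∀ c : V, ∑ v, (Pi.single c (1:ℤ) : V → ℤ) v * (q G v a - q G v b) = q G c a - q G c b := by
    intro c
    rw [Finset.sum_eq_single c]
    · simp
    · intro w _ hw; simp [Pi.single_eq_of_ne hw]
    · simp
  rw [e4, e4]
  unfold q
  rw [A_self, A_self, A_symm G b a, hA]
  ring

/-- value of the form on a sign vector -/
theorem Q_sign (x : V → ℤ) (hx : ∀ v, x v = 1 ∨ x v = -1) :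
    Q G x = 4 * (pp V ^ 2 * e2 G (univ.filter fun v => x v = 1)
      - 2 * pp V * (univ.filter fun v => x v = 1).card * ∑ v ∈ univ.filter (fun v => x v = 1), dg G v
      + ((univ.filter fun v => x v = 1).card : ℤ) ^ 2 * e2 G univ) := by
  set S := univ.filter fun v => x v = 1 with hS
  have hxv : ∀ v, x v = 2 * (if v ∈ S then 1 else 0) - 1 := by
    intro v
    rcases hx v with h | h
    · have : v ∈ S := by simp [hS, h]
      rw [h, if_pos this]; norm_num
    · have : v ∉ S := by simp [hS, h]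
      rw [h, if_neg this]; norm_num
  have h1 : Q G x = 4 * ∑ v ∈ S, ∑ w ∈ S, q G v w := by
    unfold Q
    have hz1 : ∑ v, ∑ w, q G v w * (x v * x w)
        = ∑ v, ∑ w, (4 * ((if v ∈ S then 1 else 0) * ((if w ∈ S then 1 else 0) * q G v w))
          - 2 * ((if v ∈ S then 1 else 0) * q G v w) - 2 * ((if w ∈ S then 1 else 0) * q G v w)
          + q G v w) := by
      refine Finset.sum_congr rfl fun v _ => Finset.sum_congr rfl fun w _ => ?_
      rw [hxv v, hxv w]; ring
    rw [hz1]
    simp only [Finset.sum_add_distrib, Finset.sum_sub_distrib]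
    have a1 : ∑ v, ∑ w, q G v w = 0 := by simp_rw [q_row]; simp
    have a2 : ∑ v, ∑ w, 2 * ((if v ∈ S then (1:ℤ) else 0) * q G v w) = 0 := by
      simp_rw [← Finset.mul_sum, q_row]; simp
    have a3 : ∑ v, ∑ w, 2 * ((if w ∈ S then (1:ℤ) else 0) * q G v w) = 0 := by
      rw [Finset.sum_comm]
      refine Finset.sum_eq_zero fun w _ => ?_
      rw [← Finset.mul_sum, ← Finset.mul_sum]
      have : ∑ v, q G v w = 0 := by
        rw [← q_row G w]
        exact Finset.sum_congr rfl fun v _ => q_symm G v w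
      rw [this]; ring
    have a4 : ∑ v, ∑ w, 4 * ((if v ∈ S then (1:ℤ) else 0) * ((if w ∈ S then 1 else 0) * q G v w))
        = 4 * ∑ v ∈ S, ∑ w ∈ S, q G v w := by
      simp_rw [← Finset.mul_sum]
      congr 1
      rw [← Finset.sum_filter_add_sum_filter_not univ (fun v => v ∈ S)]
      have b1 : ∑ v ∈ univ.filter (fun v => ¬ v ∈ S), (if v ∈ S then (1:ℤ) else 0)
          * ∑ w, (if w ∈ S then (1:ℤ) else 0) * q G v w = 0 := by
        refine Finset.sum_eq_zero fun v hv => ?_
        rw [if_neg (Finset.mem_filter.mp hv).2]; ring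
      rw [b1, add_zero]
      have b2 : univ.filter (fun v => v ∈ S) = S := by ext v; simp
      rw [b2]
      refine Finset.sum_congr rfl fun v hv => ?_
      rw [if_pos hv, one_mul]
      simp_rw [ite_mul, one_mul, zero_mul]
      rw [← Finset.sum_filter]
      congr 1
    rw [a1, a2, a3, a4]; ring
  rw [h1]
  congr 1
  unfold q e2
  simp only [Finset.sum_add_distrib, Finset.sum_sub_distrib, ← Finset.mul_sum, Finset.sum_const,
    nsmul_eq_mul]
  ring

theorem UO.sign_neg (h : UO G) (x : V → ℤ) (hx : ∀ v, x v = 1 ∨ x v = -1)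
    {a b : V} (ha : x a = 1) (hb : x b = -1) : Q G x < 0 := by
  rw [Q_sign x hx]
  have := h.set_neg (univ.filter fun v => x v = 1) ⟨a, by simp [ha]⟩ ⟨b, by simp [hb]⟩
  linarith

end Pool.Agent.Q296.TC
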