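import Pool.Agent.Q296.TC.Match

/-!
# Diameter at most three
-/

namespace Pool.Agent.Q296.TC

set_option linter.unusedSectionVars false

open Finset

variable {V : Type*} [Fintype V] [DecidableEq V] {G : SimpleGraph V} [DecidableRel G.Adj]

/-- the value of the form on indicator vectors -/
theorem Q_ind (S : Finset V) (N : ℤ) :
    Q G (fun v => if v ∈ S then N else 0) = N ^ 2 * (pp V ^ 2 * e2 G S
      - 2 * pp V * S.card * ∑ x ∈ S, dg G x + (S.card : ℤ) ^ 2 * e2 G univ) := by
  have h1 : Q G (fun v => if v ∈ S then N else 0) = N ^ 2 * ∑ v ∈ S, ∑ w ∈ S, q G v w := by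
    unfold Q
    have : ∀ v, ∑ w, q G v w * ((if v ∈ S then N else 0) * (if w ∈ S then N else 0))
        = if v ∈ S then N ^ 2 * ∑ w ∈ S, q G v w else 0 := by
      intro v
      split_ifs with hv
      · rw [Finset.mul_sum, ← Finset.sum_filter_add_sum_filter_not univ (fun w => w ∈ S)]
        have a1 : ∑ w ∈ univ.filter (fun w => ¬ w ∈ S), q G v w * (N * if w ∈ S then N else 0) = 0 := by
          refine Finset.sum_eq_zero fun w hw => ?_
          rw [if_neg (Finset.mem_filter.mp hw).2]; ring
        have a2 : univ.filter (fun w => w ∈ S) = S := by ext w; simp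
        rw [a1, add_zero, a2]
        refine Finset.sum_congr rfl fun w hw => ?_
        rw [if_pos hw]; ring
      · simp
    simp_rw [this]
    rw [← Finset.sum_filter, Finset.mul_sum]
    congr 1
    ext w; simp
  rw [h1]
  congr 1
  unfold q e2
  simp only [Finset.sum_add_distrib, Finset.sum_sub_distrib, ← Finset.mul_sum, Finset.sum_const,
    nsmul_eq_mul]
  ring

theorem UO.vertex (h : UO G) (hp : 2 ≤ Fintype.card V) (v : V) : e2 G univ < 2 * pp V * dg G v := by
  have hne : ({v}ᶜ : Finset V).Nonempty := by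
    rw [← Finset.card_pos, Finset.card_compl, Finset.card_singleton]; omega
  have := h.set_neg {v} (by simp) hne
  have e3 : e2 G {v} = 0 := by unfold e2; simp [A_self]
  simp only [Finset.sum_singleton, Finset.card_singleton, e3] at this
  push_cast at this
  linarith

theorem UO.edge (h : UO G) (hp : 3 ≤ Fintype.card V) {u v : V} (huv : G.Adj u v) :
    2 * e2 G univ + pp V ^ 2 < 2 * pp V * (dg G u + dg G v) := by
  have hne' : u ≠ v := huv.ne
  have hc : ({u, v} : Finset V).card = 2 := Finset.card_pair hne'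
  have hne : (({u, v} : Finset V)ᶜ).Nonempty := by
    rw [← Finset.card_pos, Finset.card_compl, hc]; omega
  have := h.set_neg {u, v} (by simp) hne
  have e3 : e2 G {u, v} = 2 := by
    unfold e2
    rw [Finset.sum_pair hne', Finset.sum_pair hne', Finset.sum_pair hne', A_self, A_self,
      A_symm G v u]
    unfold A; rw [if_pos huv]; norm_num
  rw [Finset.sum_pair hne', hc, e3] at this
  push_cast at this
  linarith

/-- the rounding potential -/
def Phi (G : SimpleGraph V) [DecidableRel G.Adj] (N : ℤ) (y : V → ℤ) : ℤ :=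
  - Q G y + ∑ w, y w * (N - y w) * (2 * pp V * dg G w - e2 G univ)

theorem Phi_add_single (N : ℤ) (y : V → ℤ) (a : V) (t : ℤ) :
    Phi G N (y + Pi.single a t) = Phi G N y
      + t * (- 2 * ∑ v, q G a v * y v + (N - 2 * y a) * (2 * pp V * dg G a - e2 G univ)) := by
  unfold Phi
  rw [Q_lin]
  have h1 : ∑ w, (y + Pi.single a t : V → ℤ) w * (N - (y + Pi.single a t : V → ℤ) w)
      * (2 * pp V * dg G w - e2 G univ)
      = ∑ w, y w * (N - y w) * (2 * pp V * dg G w - e2 G univ)
        + (t * (N - 2 * y a) - t ^ 2) * (2 * pp V * dg G a - e2 G univ) := by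
    rw [← Finset.add_sum_erase univ _ (mem_univ a), ← Finset.add_sum_erase univ
      (fun w => y w * (N - y w) * (2 * pp V * dg G w - e2 G univ)) (mem_univ a)]
    have h2 : ∑ w ∈ univ.erase a, (y + Pi.single a t : V → ℤ) w
        * (N - (y + Pi.single a t : V → ℤ) w) * (2 * pp V * dg G w - e2 G univ)
        = ∑ w ∈ univ.erase a, y w * (N - y w) * (2 * pp V * dg G w - e2 G univ) := by
      refine Finset.sum_congr rfl fun w hw => ?_
      have : w ≠ a := (Finset.mem_erase.mp hw).1
      simp [Pi.single_eq_of_ne this]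
    rw [h2]
    simp only [Pi.add_apply, Pi.single_eq_same]
    ring
  rw [h1]
  have h3 : q G a a = - (2 * pp V * dg G a - e2 G univ) := by
    unfold q; rw [A_self]; ring
  rw [h3]
  ring

theorem round (N : ℤ) (R : Finset V) : ∀ y : V → ℤ, (∀ w ∈ R, 0 ≤ y w ∧ y w ≤ N) →
    ∃ y' : V → ℤ, (∀ w ∉ R, y' w = y w) ∧ (∀ w ∈ R, y' w = 0 ∨ y' w = N) ∧
      Phi G N y' ≤ Phi G N y := by
  induction R using Finset.induction_on with
  | empty => intro y _; exact ⟨y, fun _ _ => rfl, by simp, le_rfl⟩
  | insert a R ha ih =>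
    intro y hy
    obtain ⟨h0, hN⟩ := hy a (by simp)
    obtain ⟨t, ht, hle⟩ : ∃ t : ℤ, (y a + t = 0 ∨ y a + t = N) ∧
        Phi G N (y + Pi.single a t) ≤ Phi G N y := by
      rcases le_total 0 (- 2 * ∑ v, q G a v * y v
        + (N - 2 * y a) * (2 * pp V * dg G a - e2 G univ)) with hK | hK
      · refine ⟨- y a, Or.inl (by ring), ?_⟩
        rw [Phi_add_single]
        nlinarith
      · refine ⟨N - y a, Or.inr (by ring), ?_⟩
        rw [Phi_add_single]
        have : (N - y a) * (- 2 * ∑ v, q G a v * y v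
          + (N - 2 * y a) * (2 * pp V * dg G a - e2 G univ)) ≤ 0 :=
          mul_nonpos_of_nonneg_of_nonpos (by linarith) hK
        linarith
    obtain ⟨y', h1, h2, h3⟩ := ih (y + Pi.single a t) (by
      intro w hw
      have hwa : w ≠ a := fun h => ha (h ▸ hw)
      simpa [Pi.single_eq_of_ne hwa] using hy w (by simp [hw]))
    refine ⟨y', ?_, ?_, h3.trans hle⟩
    · intro w hw
      simp only [Finset.mem_insert, not_or] at hw
      rw [h1 w hw.2]; simp [Pi.single_eq_of_ne hw.1]
    · intro w hw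
      rcases Finset.mem_insert.mp hw with rfl | hw
      · rw [h1 w ha]; simpa using ht
      · exact h2 w hw

theorem Q_const_add (c : ℤ) (x : V → ℤ) : Q G (fun v => c + x v) = Q G x := by
  unfold Q
  have h1 : ∀ v, ∑ w, q G v w * ((c + x v) * (c + x w))
      = ∑ w, q G v w * (x v * x w) + (c * (c + x v)) * ∑ w, q G v w + c * ∑ w, q G v w * x w := by
    intro v
    rw [Finset.mul_sum, Finset.mul_sum, ← Finset.sum_add_distrib, ← Finset.sum_add_distrib]
    refine Finset.sum_congr rfl fun w _ => ?_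
    ring
  simp_rw [h1, q_row]
  rw [Finset.sum_add_distrib, Finset.sum_add_distrib, ← Finset.mul_sum]
  have h2 : ∑ v, ∑ w, q G v w * x w = 0 := by
    rw [Finset.sum_comm]
    refine Finset.sum_eq_zero fun w _ => ?_
    rw [← Finset.sum_mul]
    have : ∑ v, q G v w = 0 := by
      rw [← q_row G w]
      exact Finset.sum_congr rfl fun v _ => q_symm G v w
    rw [this]; ring
  rw [h2]
  simp

/-- closed neighbourhood -/
def Nb (G : SimpleGraph V) [DecidableRel G.Adj] (u : V) : Finset V :=
  insert u (univ.filter fun w => G.Adj u w)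

theorem mem_Nb {u w : V} : w ∈ Nb G u ↔ w = u ∨ G.Adj u w := by
  unfold Nb; simp

theorem card_Nb (u : V) : ((Nb G u).card : ℤ) = dg G u + 1 := by
  unfold Nb
  rw [Finset.card_insert_of_notMem (by simp)]
  unfold dg A
  rw [Finset.sum_boole]
  push_cast
  ring

theorem e2_Nb (u : V) : 2 * dg G u ≤ e2 G (Nb G u) := by
  have h1 : dg G u = ∑ y ∈ Nb G u, A G u y := by
    unfold dg
    symm
    refine Finset.sum_subset (Finset.subset_univ _) fun y _ hy => ?_
    unfold A; rw [if_neg]; intro h; exact hy (mem_Nb.2 (Or.inr h))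
  unfold e2
  rw [← Finset.add_sum_erase _ _ (show u ∈ Nb G u from mem_Nb.2 (Or.inl rfl)), ← h1]
  have h2 : dg G u ≤ ∑ x ∈ (Nb G u).erase u, ∑ y ∈ Nb G u, A G x y := by
    calc dg G u = ∑ x ∈ Nb G u, A G u x := h1
      _ = ∑ x ∈ (Nb G u).erase u, A G u x := by
          rw [← Finset.add_sum_erase _ _ (show u ∈ Nb G u from mem_Nb.2 (Or.inl rfl)), A_self]
          ring
      _ ≤ _ := by
          refine Finset.sum_le_sum fun x _ => ?_
          rw [A_symm G u x]
          exact Finset.single_le_sum (f := fun y => A G x y) (fun y _ => A_nonneg G x y)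
            (mem_Nb.2 (Or.inl rfl))
  linarith

/-- two vertices at distance at least four -/
theorem UO.no_far (h : UO G) {u v : V} (huv : u ≠ v) (h1 : ¬ G.Adj u v)
    (h2 : ∀ w, G.Adj u w → ¬ G.Adj w v) (h3 : ∀ w w', G.Adj u w → G.Adj w w' → ¬ G.Adj w' v) :
    False := by
  have hp : 2 ≤ Fintype.card V := by
    have := Finset.card_le_univ ({u, v} : Finset V)
    rwa [Finset.card_pair huv] at this
  set Nu := Nb G u with hNu
  set Nv := Nb G v with hNv
  set α : ℤ := (Nu.card : ℤ) with hα
  set β : ℤ := (Nv.card : ℤ) with hβ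
  have hdisj : ∀ w, w ∈ Nu → w ∉ Nv := by
    intro w hw hw'
    rcases mem_Nb.1 hw with rfl | hw <;> rcases mem_Nb.1 hw' with e | hw'
    · exact huv e
    · exact h1 hw'.symm
    · exact h1 (e ▸ hw)
    · exact h2 w hw hw'.symm
  have hcross : ∀ w ∈ Nu, ∀ w' ∈ Nv, ¬ G.Adj w w' := by
    intro w hw w' hw' hadj
    rcases mem_Nb.1 hw with rfl | hw <;> rcases mem_Nb.1 hw' with e | hw'
    · exact h1 (e ▸ hadj)
    · exact h2 w' hadj hw'.symm
    · exact h2 w hw (e ▸ hadj)
    · exact h3 w w' hw hadj hw'.symm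
  have hαpos : 0 < α := by
    rw [hα]; exact_mod_cast Finset.card_pos.mpr ⟨u, mem_Nb.2 (Or.inl rfl)⟩
  have hβpos : 0 < β := by
    rw [hβ]; exact_mod_cast Finset.card_pos.mpr ⟨v, mem_Nb.2 (Or.inl rfl)⟩
  let c : V → ℤ := fun w => if w ∈ Nu then β else 0
  let c' : V → ℤ := fun w => if w ∈ Nv then α else 0
  let y : V → ℤ := fun w => α + (c w - c' w)
  have hyu : ∀ w ∈ Nu, y w = α + β := by
    intro w hw; simp [y, c, c', hw, hdisj w hw]
  have hyv : ∀ w ∈ Nv, y w = 0 := by
    intro w hw
    have : w ∉ Nu := fun hw' => hdisj w hw' hw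
    simp [y, c, c', hw, this]
  have hyr : ∀ w, w ∉ Nu → w ∉ Nv → y w = α := by
    intro w hw hw'; simp [y, c, c', hw, hw']
  -- value of Q y
  have hQy : Q G y = pp V ^ 2 * (β ^ 2 * e2 G Nu + α ^ 2 * e2 G Nv) := by
    have e1 : Q G y = Q G (fun w => c w - c' w) := Q_const_add α _
    have e2' : Q G (fun w => c w - c' w) = Q G c + Q G c' - 2 * ∑ v ∈ Nu, ∑ w ∈ Nv, q G v w * (β * α) := by
      unfold Q
      have : ∀ v, ∑ w, q G v w * ((c v - c' v) * (c w - c' w))
          = ∑ w, q G v w * (c v * c w) + ∑ w, q G v w * (c' v * c' w)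
            - ∑ w, q G v w * (c v * c' w) - ∑ w, q G v w * (c' v * c w) := by
        intro v
        rw [← Finset.sum_add_distrib, ← Finset.sum_sub_distrib, ← Finset.sum_sub_distrib]
        refine Finset.sum_congr rfl fun w _ => ?_
        ring
      simp_rw [this]
      rw [Finset.sum_sub_distrib, Finset.sum_sub_distrib, Finset.sum_add_distrib]
      have s1 : ∑ v, ∑ w, q G v w * (c v * c' w) = ∑ v ∈ Nu, ∑ w ∈ Nv, q G v w * (β * α) := by
        have : ∀ v, ∑ w, q G v w * (c v * c' w) = if v ∈ Nu then ∑ w ∈ Nv, q G v w * (β * α) else 0 := by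
          intro v
          by_cases hv : v ∈ Nu
          · rw [if_pos hv]
            have : ∀ w, q G v w * (c v * c' w) = if w ∈ Nv then q G v w * (β * α) else 0 := by
              intro w
              by_cases hw : w ∈ Nv <;> simp [c, c', hv, hw]
            simp_rw [this]
            rw [← Finset.sum_filter]
            congr 1; ext w; simp
          · rw [if_neg hv]; simp [c, hv]
        simp_rw [this]
        rw [← Finset.sum_filter]
        congr 1; ext w; simp
      have s2 : ∑ v, ∑ w, q G v w * (c' v * c w) = ∑ v ∈ Nu, ∑ w ∈ Nv, q G v w * (β * α) := by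
        rw [Finset.sum_comm, ← s1]
        refine Finset.sum_congr rfl fun v _ => Finset.sum_congr rfl fun w _ => ?_
        rw [q_symm G w v]; ring
      rw [s1, s2]
      ring
    have e3 : ∑ v ∈ Nu, ∑ w ∈ Nv, q G v w * (β * α)
        = (β * α) * (- pp V * (β * ∑ v ∈ Nu, dg G v + α * ∑ w ∈ Nv, dg G w) + α * β * e2 G univ) := by
      have : ∀ v ∈ Nu, ∑ w ∈ Nv, q G v w * (β * α)
          = (β * α) * (- pp V * (β * dg G v + ∑ w ∈ Nv, dg G w) + β * e2 G univ) := by
        intro v hv
        rw [← Finset.sum_mul]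
        have : ∑ w ∈ Nv, q G v w = - pp V * (β * dg G v + ∑ w ∈ Nv, dg G w) + β * e2 G univ := by
          have hq : ∀ w ∈ Nv, q G v w = - pp V * (dg G v + dg G w) + e2 G univ := by
            intro w hw
            unfold q A
            rw [if_neg (hcross v hv w hw)]; ring
          rw [Finset.sum_congr rfl hq, Finset.sum_add_distrib, ← Finset.mul_sum,
            Finset.sum_add_distrib]
          simp only [Finset.sum_const, nsmul_eq_mul]
          rw [← hβ]
        rw [this]; ring
      rw [Finset.sum_congr rfl this, ← Finset.mul_sum, Finset.sum_add_distrib, ← Finset.mul_sum,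
        Finset.sum_add_distrib, ← Finset.mul_sum]
      simp only [Finset.sum_const, nsmul_eq_mul]
      rw [← hα]
      ring
    have e4 : Q G c = _ := Q_ind (G := G) Nu β
    have e5 : Q G c' = _ := Q_ind (G := G) Nv α
    rw [e1, e2', e3, e4, e5, ← hα, ← hβ]
    ring
  -- rounding
  obtain ⟨y', hy1, hy2, hy3⟩ := round (G := G) (α + β) (univ.filter fun w => w ∉ Nu ∧ w ∉ Nv) y (by
    intro w hw
    obtain ⟨hw1, hw2⟩ := (Finset.mem_filter.mp hw).2
    rw [hyr w hw1 hw2]
    constructor <;> linarith)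
  have hy'u : ∀ w ∈ Nu, y' w = α + β := fun w hw => by
    rw [hy1 w (by simp [hw]), hyu w hw]
  have hy'v : ∀ w ∈ Nv, y' w = 0 := fun w hw => by
    rw [hy1 w (by simp [hw]), hyv w hw]
  have hy'all : ∀ w, y' w = 0 ∨ y' w = α + β := by
    intro w
    by_cases hw : w ∈ Nu
    · exact Or.inr (hy'u w hw)
    · by_cases hw' : w ∈ Nv
      · exact Or.inl (hy'v w hw')
      · exact hy2 w (by simp [hw, hw'])
  set S := univ.filter fun w => y' w = α + β with hS
  have hNne : α + β ≠ 0 := by linarith
  have hy'S : y' = fun w => if w ∈ S then α + β else 0 := by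
    funext w
    by_cases hw : y' w = α + β
    · have : w ∈ S := by simp [hS, hw]
      rw [if_pos this, hw]
    · have : w ∉ S := by simp [hS, hw]
      rw [if_neg this]
      exact (hy'all w).resolve_right hw
  have huS : u ∈ S := by simp [hS, hy'u u (mem_Nb.2 (Or.inl rfl))]
  have hvS : v ∈ Sᶜ := by
    simp only [hS, Finset.mem_compl, Finset.mem_filter, Finset.mem_univ, true_and]
    rw [hy'v v (mem_Nb.2 (Or.inl rfl))]
    exact fun h => hNne h.symm
  have hneg := h.set_neg S ⟨u, huS⟩ ⟨v, hvS⟩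
  have hPhi' : 0 < Phi G (α + β) y' := by
    unfold Phi
    have z1 : ∑ w, y' w * (α + β - y' w) * (2 * pp V * dg G w - e2 G univ) = 0 := by
      refine Finset.sum_eq_zero fun w _ => ?_
      rcases hy'all w with e | e <;> rw [e] <;> ring
    rw [z1, hy'S, Q_ind]
    have : 0 < (α + β) ^ 2 := pow_pos (by linarith) 2
    nlinarith
  -- upper bound
  have hD : ∀ w, 0 < 2 * pp V * dg G w - e2 G univ := fun w => by linarith [h.vertex hp w]
  have hPhi : Phi G (α + β) y ≤ - (pp V ^ 2 * (β ^ 2 * e2 G Nu + α ^ 2 * e2 G Nv))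
      + α * β * (pp V * e2 G univ) := by
    unfold Phi
    rw [hQy]
    have : ∑ w, y w * (α + β - y w) * (2 * pp V * dg G w - e2 G univ)
        ≤ ∑ w, (α * β) * (2 * pp V * dg G w - e2 G univ) := by
      refine Finset.sum_le_sum fun w _ => ?_
      refine mul_le_mul_of_nonneg_right ?_ (hD w).le
      by_cases hw : w ∈ Nu
      · rw [hyu w hw]; nlinarith [mul_pos hαpos hβpos]
      · by_cases hw' : w ∈ Nv
        · rw [hyv w hw']; nlinarith [mul_pos hαpos hβpos]
        · rw [hyr w hw hw']; nlinarith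
    have t : ∑ w : V, (α * β) * (2 * pp V * dg G w - e2 G univ) = α * β * (pp V * e2 G univ) := by
      rw [← Finset.mul_sum, Finset.sum_sub_distrib, ← Finset.mul_sum, sum_dg]
      simp only [Finset.sum_const, Finset.card_univ, nsmul_eq_mul]
      unfold pp; ring
    linarith
  have hE : 0 ≤ e2 G univ := e2_nonneg univ
  have hpp : 0 < pp V := by unfold pp; exact_mod_cast (by omega : 0 < Fintype.card V)
  have b1 : e2 G univ ≤ pp V * e2 G Nu := by
    have := h.vertex hp u
    have h' := e2_Nb (G := G) u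
    nlinarith
  have b2 : e2 G univ ≤ pp V * e2 G Nv := by
    have := h.vertex hp v
    have h' := e2_Nb (G := G) v
    nlinarith
  have c1 : β ^ 2 * (pp V * e2 G univ) ≤ pp V ^ 2 * (β ^ 2 * e2 G Nu) := by
    have := mul_le_mul_of_nonneg_left b1 (mul_nonneg hpp.le (sq_nonneg β))
    nlinarith
  have c2 : α ^ 2 * (pp V * e2 G univ) ≤ pp V ^ 2 * (α ^ 2 * e2 G Nv) := by
    have := mul_le_mul_of_nonneg_left b2 (mul_nonneg hpp.le (sq_nonneg α))
    nlinarith
  have hpe : 0 ≤ pp V * e2 G univ := mul_nonneg hpp.le hE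
  have c3 : α * β * (pp V * e2 G univ) ≤ (α ^ 2 + β ^ 2) * (pp V * e2 G univ) := by
    refine mul_le_mul_of_nonneg_right ?_ hpe
    nlinarith [sq_nonneg (α - β), mul_pos hαpos hβpos]
  linarith

/-- any two vertices are joined by a walk of length at most three -/
theorem UO.walk (h : UO G) (u v : V) : ∃ w : G.Walk u v, w.length ≤ 3 := by
  by_cases huv : u = v
  · subst huv; exact ⟨SimpleGraph.Walk.nil, by simp⟩
  by_cases h1 : G.Adj u v
  · exact ⟨h1.toWalk, by simp⟩
  by_cases h2 : ∃ w, G.Adj u w ∧ G.Adj w v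
  · obtain ⟨w, hw1, hw2⟩ := h2
    exact ⟨SimpleGraph.Walk.cons hw1 (SimpleGraph.Walk.cons hw2 SimpleGraph.Walk.nil), by simp⟩
  by_cases h3 : ∃ w w', G.Adj u w ∧ G.Adj w w' ∧ G.Adj w' v
  · obtain ⟨w, w', hw1, hw2, hw3⟩ := h3
    exact ⟨SimpleGraph.Walk.cons hw1 (SimpleGraph.Walk.cons hw2
      (SimpleGraph.Walk.cons hw3 SimpleGraph.Walk.nil)), by simp⟩
  push Not at h2 h3
  exact (h.no_far huv h1 h2 (fun w w' a b c => h3 w w' a b c)).elim

/-- two vertices at distance at least three: one has large degree -/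
theorem UO.deg_of_far (h : UO G) {u v : V} (huv : u ≠ v) (h1 : ¬ G.Adj u v)
    (h2 : ∀ w, G.Adj u w → ¬ G.Adj w v) :
    pp V + 2 < 2 * dg G u ∨ pp V + 2 < 2 * dg G v := by
  by_contra hcon
  push Not at hcon
  obtain ⟨hu, hv⟩ := hcon
  have hp2 : 2 ≤ Fintype.card V := by
    have := Finset.card_le_univ ({u, v} : Finset V)
    rwa [Finset.card_pair huv] at this
  obtain ⟨w0, hw0⟩ := h.exists_adj hp2 u
  have hw0v : w0 ≠ v := fun e => h1 (e ▸ hw0)
  have hp3 : 3 ≤ Fintype.card V := by
    have hc : ({u, v, w0} : Finset V).card = 3 := by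
      rw [Finset.card_insert_of_notMem, Finset.card_pair hw0v.symm]
      simp only [Finset.mem_insert, Finset.mem_singleton, not_or]
      exact ⟨huv, hw0.ne⟩
    have := Finset.card_le_univ ({u, v, w0} : Finset V)
    omega
  set E := e2 G univ with hE
  set p := pp V with hp
  have hdisj : Disjoint (Nb G u) (Nb G v) := by
    rw [Finset.disjoint_left]
    intro w hw hw'
    rcases mem_Nb.1 hw with rfl | hw <;> rcases mem_Nb.1 hw' with e | hw'
    · exact huv e
    · exact h1 hw'.symm
    · exact h1 (e ▸ hw)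
    · exact h2 w hw hw'.symm
  -- lower bound on the degree sum over a closed neighbourhood
  have hsum : ∀ x, 2 * p * dg G x + dg G x * (2 * E + p ^ 2 - 2 * p * dg G x)
      ≤ 2 * p * ∑ w ∈ Nb G x, dg G w := by
    intro x
    have hn : x ∉ univ.filter (fun w => G.Adj x w) := by simp
    unfold Nb
    rw [Finset.sum_insert hn, mul_add]
    have h5 : dg G x * (2 * E + p ^ 2 - 2 * p * dg G x)
        = ∑ _w ∈ univ.filter (fun w => G.Adj x w), (2 * E + p ^ 2 - 2 * p * dg G x) := by
      rw [Finset.sum_const, nsmul_eq_mul]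
      congr 1
      unfold dg A; rw [Finset.sum_boole]
    rw [h5, Finset.mul_sum]
    have : ∑ _w ∈ univ.filter (fun w => G.Adj x w), (2 * E + p ^ 2 - 2 * p * dg G x)
        ≤ ∑ w ∈ univ.filter (fun w => G.Adj x w), 2 * p * dg G w := by
      refine Finset.sum_le_sum fun w hw => ?_
      have := h.edge hp3 (Finset.mem_filter.mp hw).2
      linarith
    linarith
  have hrest : ((Nb G u ∪ Nb G v)ᶜ.card : ℤ) * E ≤ 2 * p * ∑ w ∈ (Nb G u ∪ Nb G v)ᶜ, dg G w := by
    rw [Finset.mul_sum]
    calc ((Nb G u ∪ Nb G v)ᶜ.card : ℤ) * E = ∑ _w ∈ (Nb G u ∪ Nb G v)ᶜ, E := by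
          rw [Finset.sum_const, nsmul_eq_mul]
      _ ≤ _ := Finset.sum_le_sum fun w _ => (h.vertex hp2 w).le
  have htot : ∑ w ∈ Nb G u, dg G w + ∑ w ∈ Nb G v, dg G w
      + ∑ w ∈ (Nb G u ∪ Nb G v)ᶜ, dg G w = E := by
    rw [← Finset.sum_union hdisj, Finset.sum_add_sum_compl, sum_dg]
  have hcard : ((Nb G u ∪ Nb G v)ᶜ.card : ℤ) = p - (dg G u + 1) - (dg G v + 1) := by
    have e1 := Finset.card_add_card_compl (Nb G u ∪ Nb G v)
    rw [Finset.card_union_of_disjoint hdisj] at e1
    have e2' : ((Nb G u).card : ℤ) + (Nb G v).card + ((Nb G u ∪ Nb G v)ᶜ.card : ℤ) = p := by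
      rw [hp]; unfold pp; exact_mod_cast e1
    rw [card_Nb, card_Nb] at e2'
    linarith
  rw [hcard] at hrest
  have s1 := hsum u
  have s2 := hsum v
  have v1 := h.vertex hp2 u
  have v2 := h.vertex hp2 v
  rw [← hE, ← hp] at v1 v2
  have m1 : 0 ≤ (2 * p * dg G u - E) * (p + 2 - 2 * dg G u) :=
    mul_nonneg (by linarith) (by linarith)
  have m2 : 0 ≤ (2 * p * dg G v - E) * (p + 2 - 2 * dg G v) :=
    mul_nonneg (by linarith) (by linarith)
  -- strictness: use the vertex `u` itself
  have hstrict : 2 * p * E < 2 * p * E := by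
    have hp0 : 0 < p := by rw [hp]; unfold pp; exact_mod_cast (by omega : 0 < Fintype.card V)
    have hdu : 0 < dg G u := by
      by_contra hc
      have h0 : dg G u = 0 := le_antisymm (not_lt.mp hc) (dg_nonneg u)
      rw [h0] at v1
      have := e2_nonneg (G := G) univ
      rw [← hE] at this
      linarith
    -- strict edge inequality at w0
    have hs : 2 * p * dg G u + dg G u * (2 * E + p ^ 2 - 2 * p * dg G u)
        < 2 * p * ∑ w ∈ Nb G u, dg G w := by
      have hn : u ∉ univ.filter (fun w => G.Adj u w) := by simp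
      unfold Nb
      rw [Finset.sum_insert hn, mul_add]
      have h5 : dg G u * (2 * E + p ^ 2 - 2 * p * dg G u)
          = ∑ _w ∈ univ.filter (fun w => G.Adj u w), (2 * E + p ^ 2 - 2 * p * dg G u) := by
        rw [Finset.sum_const, nsmul_eq_mul]
        congr 1
        unfold dg A; rw [Finset.sum_boole]
      rw [h5, Finset.mul_sum]
      have : ∑ _w ∈ univ.filter (fun w => G.Adj u w), (2 * E + p ^ 2 - 2 * p * dg G u)
          < ∑ w ∈ univ.filter (fun w => G.Adj u w), 2 * p * dg G w := by
        refine Finset.sum_lt_sum (fun w hw => ?_) ⟨w0, by simp [hw0], ?_⟩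
        · have := h.edge hp3 (Finset.mem_filter.mp hw).2
          linarith
        · have := h.edge hp3 hw0
          linarith
      linarith
    nlinarith [s2, hrest, htot, m1, m2, hs]
  exact lt_irrefl _ hstrict

/-- the vertex with few neighbours has at least two of them -/
theorem UO.small_deg (h : UO G) {u v : V} (huv : u ≠ v) (h1 : ¬ G.Adj u v)
    (hv : pp V + 2 < 2 * dg G v) : 2 ≤ dg G u := by
  have hp2 : 2 ≤ Fintype.card V := by
    have := Finset.card_le_univ ({u, v} : Finset V)
    rwa [Finset.card_pair huv] at this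
  obtain ⟨w0, hw0⟩ := h.exists_adj hp2 u
  have hw0v : w0 ≠ v := fun e => h1 (e ▸ hw0)
  have hp3 : 3 ≤ Fintype.card V := by
    have hc : ({u, v, w0} : Finset V).card = 3 := by
      rw [Finset.card_insert_of_notMem, Finset.card_pair hw0v.symm]
      simp only [Finset.mem_insert, Finset.mem_singleton, not_or]
      exact ⟨huv, hw0.ne⟩
    have := Finset.card_le_univ ({u, v, w0} : Finset V)
    omega
  by_contra hcon
  have hle : 1 ≤ dg G u := by
    unfold dg
    have : A G u w0 ≤ ∑ y, A G u y :=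
      Finset.single_le_sum (f := fun y => A G u y) (fun y _ => A_nonneg G u y) (mem_univ w0)
    unfold A at this ⊢
    rwa [if_pos hw0] at this
  have hdu : dg G u = 1 := by omega
  -- degree sum
  have h0 : ∑ w, dg G w = e2 G univ := sum_dg G
  rw [← Finset.add_sum_erase univ _ (mem_univ u),
    ← Finset.add_sum_erase (univ.erase u) _ (show v ∈ univ.erase u by simp [huv.symm]),
    ← Finset.add_sum_erase ((univ.erase u).erase v) _
      (show w0 ∈ (univ.erase u).erase v by simp [hw0v, hw0.ne.symm])] at h0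
  have hcard : ((((univ.erase u).erase v).erase w0).card : ℤ) = pp V - 3 := by
    rw [Finset.card_erase_of_mem (by simp [hw0v, hw0.ne.symm]),
      Finset.card_erase_of_mem (by simp [huv.symm]), Finset.card_erase_of_mem (mem_univ u),
      Finset.card_univ]
    unfold pp
    omega
  have hrest : (pp V - 3) * e2 G univ
      ≤ 2 * pp V * ∑ w ∈ ((univ.erase u).erase v).erase w0, dg G w := by
    rw [Finset.mul_sum, ← hcard]
    calc ((((univ.erase u).erase v).erase w0).card : ℤ) * e2 G univ
        = ∑ _w ∈ ((univ.erase u).erase v).erase w0, e2 G univ := by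
          rw [Finset.sum_const, nsmul_eq_mul]
      _ ≤ _ := Finset.sum_le_sum fun w _ => (h.vertex hp2 w).le
  have he := h.edge hp3 hw0
  have hvu := h.vertex hp2 u
  rw [hdu] at he hvu h0
  have hpp : 3 ≤ pp V := by unfold pp; exact_mod_cast hp3
  have h0' : 2 * pp V * (1 + (dg G v + (dg G w0 + ∑ w ∈ ((univ.erase u).erase v).erase w0, dg G w)))
      = 2 * pp V * e2 G univ := by rw [h0]
  nlinarith [h0', hrest, he, hvu, hv, hpp]

/-- no independent set of size three: no two vertices are far apart -/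
theorem UO.no_far_of_alpha (h : UO G) (hα : ∀ x y z, x ≠ y → y ≠ z → x ≠ z →
      G.Adj x y ∨ G.Adj y z ∨ G.Adj x z) {u v : V} (huv : u ≠ v) (h1 : ¬ G.Adj u v)
    (h2 : ∀ w, G.Adj u w → ¬ G.Adj w v) : False := by
  have hcompl : (Nb G u)ᶜ = Nb G v := by
    ext w
    rw [Finset.mem_compl, mem_Nb, mem_Nb]
    constructor
    · intro hw
      push Not at hw
      by_cases hwv : w = v
      · exact Or.inl hwv
      · right
        rcases hα u v w huv (Ne.symm hwv) (Ne.symm hw.1) with h' | h' | h'
        · exact absurd h' h1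
        · exact h'
        · exact absurd h' hw.2
    · rintro (rfl | hw) hw'
      · rcases hw' with e | hw'
        · exact huv e.symm
        · exact h1 hw'
      · rcases hw' with e | hw'
        · exact h1 (e ▸ hw).symm
        · exact h2 w hw' hw.symm
  have hclu : ∀ x ∈ Nb G u, ∀ y ∈ Nb G u, x ≠ y → G.Adj x y := by
    intro x hx y hy hxy
    have hxv : x ∉ Nb G v := by rw [← hcompl]; simpa using hx
    have hyv : y ∉ Nb G v := by rw [← hcompl]; simpa using hy
    rw [mem_Nb] at hxv hyv
    push Not at hxv hyv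
    rcases hα x y v hxy hyv.1 hxv.1 with h' | h' | h'
    · exact h'
    · exact absurd h'.symm hyv.2
    · exact absurd h'.symm hxv.2
  have hclv : ∀ x ∈ Nb G v, ∀ y ∈ Nb G v, x ≠ y → G.Adj x y := by
    intro x hx y hy hxy
    have hxu : x ∉ Nb G u := by rw [← hcompl] at hx; simpa using hx
    have hyu : y ∉ Nb G u := by rw [← hcompl] at hy; simpa using hy
    rw [mem_Nb] at hxu hyu
    push Not at hxu hyu
    rcases hα x y u hxy hyu.1 hxu.1 with h' | h' | h'
    · exact h'
    · exact absurd h'.symm hyu.2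
    · exact absurd h'.symm hxu.2
  have hcl : ∀ S : Finset V, (∀ x ∈ S, ∀ y ∈ S, x ≠ y → G.Adj x y) →
      e2 G S = (S.card : ℤ) * ((S.card : ℤ) - 1) := by
    intro S hS
    unfold e2
    have : ∀ x ∈ S, ∑ y ∈ S, A G x y = (S.card : ℤ) - 1 := by
      intro x hx
      rw [← Finset.add_sum_erase _ _ hx, A_self]
      have : ∀ y ∈ S.erase x, A G x y = 1 := by
        intro y hy
        obtain ⟨hyx, hy⟩ := Finset.mem_erase.mp hy
        unfold A; rw [if_pos (hS x hx y hy hyx.symm)]
      rw [Finset.sum_congr rfl this, Finset.sum_const, Finset.card_erase_of_mem hx, nsmul_eq_mul]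
      have := Finset.card_pos.mpr ⟨x, hx⟩
      push_cast [Nat.cast_sub (show 1 ≤ S.card by omega)]
      ring
    rw [Finset.sum_congr rfl this, Finset.sum_const, nsmul_eq_mul]
  have hE : e2 G univ ≤ pp V * (pp V - 2) := by
    rw [← sum_dg]
    have hdeg : ∀ w, dg G w ≤ pp V - 2 := by
      intro w
      obtain ⟨z, hzw, hz⟩ : ∃ z, z ≠ w ∧ ¬ G.Adj w z := by
        by_cases hw : w ∈ Nb G u
        · refine ⟨v, ?_, ?_⟩
          · rintro rfl
            have : v ∈ (Nb G u)ᶜ := by rw [hcompl, mem_Nb]; exact Or.inl rfl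
            exact (Finset.mem_compl.mp this) hw
          · intro hadj
            have : w ∈ (Nb G u)ᶜ := by rw [hcompl, mem_Nb]; exact Or.inr hadj.symm
            exact (Finset.mem_compl.mp this) hw
        · refine ⟨u, ?_, ?_⟩
          · rintro rfl; exact hw (mem_Nb.2 (Or.inl rfl))
          · intro hadj; exact hw (mem_Nb.2 (Or.inr hadj.symm))
      unfold dg
      rw [← Finset.add_sum_erase univ _ (mem_univ w), A_self,
        ← Finset.add_sum_erase (univ.erase w) _ (show z ∈ univ.erase w by simp [hzw])]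
      have hz0 : A G w z = 0 := by unfold A; rw [if_neg hz]
      rw [hz0]
      have hc : (((univ.erase w).erase z).card : ℤ) = pp V - 2 := by
        rw [Finset.card_erase_of_mem (by simp [hzw]), Finset.card_erase_of_mem (mem_univ w),
          Finset.card_univ]
        unfold pp
        have : 2 ≤ Fintype.card V := by
          have := Finset.card_le_univ ({z, w} : Finset V)
          rwa [Finset.card_pair hzw] at this
        omega
      calc 0 + (0 + ∑ y ∈ (univ.erase w).erase z, A G w y)
          ≤ 0 + (0 + ∑ _y ∈ (univ.erase w).erase z, (1 : ℤ)) := by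
            have := Finset.sum_le_sum (s := (univ.erase w).erase z)
              (f := fun y => A G w y) (g := fun _ => (1 : ℤ)) (fun y _ => A_le_one G w y)
            linarith
        _ = pp V - 2 := by rw [← hc]; simp
    calc ∑ w, dg G w ≤ ∑ _w : V, (pp V - 2) := Finset.sum_le_sum fun w _ => hdeg w
      _ = pp V * (pp V - 2) := by
          rw [Finset.sum_const, Finset.card_univ, nsmul_eq_mul]; rfl
  have h0 := h (Nb G u) ⟨u, mem_Nb.2 (Or.inl rfl)⟩ (by
    rw [hcompl]; exact ⟨v, mem_Nb.2 (Or.inl rfl)⟩)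
  have hcard := Finset.card_add_card_compl (Nb G u)
  rw [hcompl] at h0 hcard
  rw [hcl _ hclu, hcl _ hclv] at h0
  have hs : (0 : ℚ) < (Nb G u).card := by
    exact_mod_cast Finset.card_pos.mpr ⟨u, mem_Nb.2 (Or.inl rfl)⟩
  have ht : (0 : ℚ) < (Nb G v).card := by
    exact_mod_cast Finset.card_pos.mpr ⟨v, mem_Nb.2 (Or.inl rfl)⟩
  have hst : ((Nb G u).card : ℚ) + (Nb G v).card = Fintype.card V := by exact_mod_cast hcard
  have hp : (0 : ℚ) < Fintype.card V := by linarith
  push_cast at h0
  rw [mul_div_cancel_left₀ _ hs.ne', mul_div_cancel_left₀ _ ht.ne', lt_div_iff₀ hp] at h0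
  have hE' : ((e2 G univ : ℤ) : ℚ) ≤ (Fintype.card V : ℚ) * ((Fintype.card V : ℚ) - 2) := by
    have := hE
    unfold pp at this
    exact_mod_cast this
  nlinarith

end Pool.Agent.Q296.TC
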