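import Pool.Agent.Q296.TC.Part
import Pool.Agent.Q296.TC.Far
import Pool.Agent.Q296.TC.Banner

/-!
# Final assembly
-/

namespace Pool.Agent.Q296.TC

set_option linter.unusedSectionVars false

open Finset

section core

variable {V : Type*} [Fintype V] [DecidableEq V] {G : SimpleGraph V} [DecidableRel G.Adj]

theorem dg_eq_ncard (u : V) : dg G u = ((G.neighborSet u).ncard : ℤ) := by
  have : (G.neighborSet u) = ((univ.filter fun w => G.Adj u w : Finset V) : Set V) := by
    ext w; simp
  rw [this, Set.ncard_coe_finset]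
  unfold dg A
  rw [Finset.sum_boole]

theorem UO.connected (h : UO G) [Nonempty V] : G.Connected := by
  refine ⟨fun u v => ?_⟩
  obtain ⟨w, -⟩ := h.walk u v
  exact ⟨w⟩

theorem UO.dist_le_three (h : UO G) (u v : V) : G.dist u v ≤ 3 := by
  obtain ⟨w, hw⟩ := h.walk u v
  exact (SimpleGraph.dist_le w).trans hw

theorem far_of_dist {u v : V} (h : 2 < G.dist u v) :
    u ≠ v ∧ ¬ G.Adj u v ∧ ∀ w, G.Adj u w → ¬ G.Adj w v := by
  refine ⟨?_, ?_, ?_⟩
  · rintro rfl; simp at h
  · intro hadj
    have := SimpleGraph.dist_le hadj.toWalk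
    simp at this
    omega
  · intro w h1 h2
    have := SimpleGraph.dist_le (SimpleGraph.Walk.cons h1 (SimpleGraph.Walk.cons h2
      SimpleGraph.Walk.nil))
    simp at this
    omega

theorem UO.degree_far (h : UO G) {u v : V} (hd : 2 < G.dist u v) :
    Fintype.card V + 2 < 2 * (G.neighborSet u).ncard ∨
      Fintype.card V + 2 < 2 * (G.neighborSet v).ncard := by
  obtain ⟨h1, h2, h3⟩ := far_of_dist hd
  have := h.deg_of_far h1 h2 h3
  rw [dg_eq_ncard, dg_eq_ncard] at this
  unfold pp at this
  rcases this with h | h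
  · left; exact_mod_cast h
  · right; exact_mod_cast h

theorem UO.eleven (h : UO G) {u v : V} (hd : 2 < G.dist u v) : 11 ≤ Fintype.card V := by
  obtain ⟨h1, h2, h3⟩ := far_of_dist hd
  have hdisj : Disjoint (Nb G u) (Nb G v) := by
    rw [Finset.disjoint_left]
    intro w hw hw'
    rcases mem_Nb.1 hw with rfl | hw <;> rcases mem_Nb.1 hw' with e | hw'
    · exact h1 e
    · exact h2 hw'.symm
    · exact h2 (e ▸ hw)
    · exact h3 w hw hw'.symm
  have hle : (dg G u + 1) + (dg G v + 1) ≤ pp V := by
    rw [← card_Nb, ← card_Nb]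
    unfold pp
    have : (Nb G u).card + (Nb G v).card ≤ Fintype.card V := by
      rw [← Finset.card_union_of_disjoint hdisj]; exact Finset.card_le_univ _
    exact_mod_cast this
  have : (11 : ℤ) ≤ pp V := by
    rcases h.deg_of_far h1 h2 h3 with h' | h'
    · have := h.small_deg h1.symm (fun e => h2 e.symm) h'
      omega
    · have := h.small_deg h1 h2 h'
      omega
  unfold pp at this
  exact_mod_cast this

theorem UO.dist_le_two_of_banner (h : UO G) (hG : BannerFree G) (u v : V) :
    G.dist u v ≤ 2 := by
  by_contra hd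
  push Not at hd
  obtain ⟨h1, h2, h3⟩ := far_of_dist hd
  exact h.no_far_of_banner hG h1 h2 h3

/-- at distance three, one of the two vertices has degree at least seven and the other one has
at least eight non-neighbours (itself not counted) -/
theorem UO.nonneighbours_far (h : UO G) {u v : V} (hd : 2 < G.dist u v) :
    7 ≤ (G.neighborSet u).ncard ∧ 8 ≤ ((Gᶜ).neighborSet v).ncard ∨
      7 ≤ (G.neighborSet v).ncard ∧ 8 ≤ ((Gᶜ).neighborSet u).ncard := by
  obtain ⟨h1, h2, h3⟩ := far_of_dist hd
  have h11 := h.eleven hd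
  have key : ∀ {u v : V}, u ≠ v → ¬ G.Adj u v → (∀ w, G.Adj u w → ¬ G.Adj w v) →
      pp V + 2 < 2 * dg G u → 7 ≤ (G.neighborSet u).ncard ∧ 8 ≤ ((Gᶜ).neighborSet v).ncard := by
    intro u v h1 h2 h3 h'
    have h7 : 7 ≤ (G.neighborSet u).ncard := by
      rw [dg_eq_ncard] at h'
      unfold pp at h'
      have : (11 : ℤ) ≤ (Fintype.card V : ℤ) := by exact_mod_cast h11
      omega
    refine ⟨h7, ?_⟩
    have hsub : insert u (G.neighborSet u) ⊆ (Gᶜ).neighborSet v := by
      intro w hw
      rw [SimpleGraph.mem_neighborSet, SimpleGraph.compl_adj]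
      rcases hw with rfl | hw
      · exact ⟨h1.symm, fun e => h2 e.symm⟩
      · have hw' : G.Adj u w := hw
        refine ⟨?_, fun e => h3 w hw' e.symm⟩
        rintro rfl
        exact h2 hw'
    have hcard := Set.ncard_le_ncard hsub (Set.toFinite _)
    rw [Set.ncard_insert_of_notMem (by simp)] at hcard
    omega
  rcases h.deg_of_far h1 h2 h3 with h' | h'
  · exact Or.inl (key h1 h2 h3 h')
  · exact Or.inr (key h1.symm (fun e => h2 e.symm) (fun w a b => h3 w b.symm a.symm) h')

theorem pm_of_perfect (M : (Gᶜ).Subgraph) (hM : M.IsPerfectMatching) :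
    PM G (univ : Finset V) := by
  have hpart : ∀ v, ∃! w, M.Adj v w := SimpleGraph.Subgraph.isPerfectMatching_iff.mp hM
  have key : ∀ n : ℕ, ∀ U : Finset V, U.card = n → (∀ v ∈ U, ∀ w, M.Adj v w → w ∈ U) → PM G U := by
    intro n
    induction n using Nat.strong_induction_on with
    | _ n ih =>
      intro U hn hU
      rcases U.eq_empty_or_nonempty with rfl | ⟨a, ha⟩
      · exact PM.empty
      · obtain ⟨b, hb, hbu⟩ := hpart a
        have hbU := hU a ha b hb
        have hab : a ≠ b := hb.ne
        have hadj : ¬ G.Adj a b := by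
          have := M.adj_sub hb
          rw [SimpleGraph.compl_adj] at this
          exact this.2
        have hlt : ((U.erase a).erase b).card < n := by
          rw [Finset.card_erase_of_mem (by simp [hab.symm, hbU]), Finset.card_erase_of_mem ha]
          have := Finset.card_pos.mpr ⟨a, ha⟩
          omega
        have hpm := ih _ hlt ((U.erase a).erase b) rfl (by
          intro v hv w hw
          obtain ⟨hvb, hv'⟩ := Finset.mem_erase.mp hv
          obtain ⟨hva, hvU⟩ := Finset.mem_erase.mp hv'
          have hwU := hU v hvU w hw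
          have hwa : w ≠ a := by
            rintro rfl
            exact hvb (hbu v hw.symm)
          have hwb : w ≠ b := by
            rintro rfl
            obtain ⟨c, hc, hcu⟩ := hpart w
            exact hva ((hcu v hw.symm).trans (hcu a hb.symm).symm)
          simp [hwa, hwb, hwU])
        refine PM.add' hpm (by simp) (by simp) hab hadj ?_
        intro v
        simp only [Finset.mem_erase]
        constructor
        · intro hv
          by_cases h1 : v = a
          · exact Or.inl h1
          · by_cases h2 : v = b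
            · exact Or.inr (Or.inl h2)
            · exact Or.inr (Or.inr ⟨h2, h1, hv⟩)
        · rintro (rfl | rfl | ⟨-, -, h⟩)
          · exact ha
          · exact hbU
          · exact h
  exact key _ univ rfl (fun _ _ _ _ => mem_univ _)

theorem UO.no_perfect (h : UO G) [Nonempty V] : ¬ ∃ M : (Gᶜ).Subgraph, M.IsPerfectMatching := by
  rintro ⟨M, hM⟩
  exact h.no_pm (pm_of_perfect M hM)

theorem TF.of_cliqueFree (h : G.CliqueFree 3) : TF G := by
  intro x y z hxy hyz hxz
  refine h {x, y, z} ?_
  rw [SimpleGraph.is3Clique_iff]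
  exact ⟨x, y, z, hxy, hxz, hyz, rfl⟩

theorem CB.dist_le_two (h : CB G) (u v : V) : G.dist u v ≤ 2 := by
  obtain ⟨K, ⟨x1, hx1⟩, ⟨x2, hx2⟩, hK⟩ := h
  by_cases hu : K u <;> by_cases hv : K v
  · have h1 : G.Adj u x2 := (hK u x2).2 (by simp [hu, hx2])
    have h2 : G.Adj x2 v := (hK x2 v).2 (by simp [hv, hx2])
    exact SimpleGraph.dist_le (SimpleGraph.Walk.cons h1 (SimpleGraph.Walk.cons h2
      SimpleGraph.Walk.nil))
  · have h1 : G.Adj u v := (hK u v).2 (by simp [hu, hv])
    have := SimpleGraph.dist_le h1.toWalk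
    simp at this
    omega
  · have h1 : G.Adj u v := (hK u v).2 (by simp [hu, hv])
    have := SimpleGraph.dist_le h1.toWalk
    simp at this
    omega
  · have h1 : G.Adj u x1 := (hK u x1).2 (by simp [hu, hx1])
    have h2 : G.Adj x1 v := (hK x1 v).2 (by simp [hv, hx1])
    exact SimpleGraph.dist_le (SimpleGraph.Walk.cons h1 (SimpleGraph.Walk.cons h2
      SimpleGraph.Walk.nil))

end core

end Pool.Agent.Q296.TC
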