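import Pool.Agent.Q296.TC.Core

/-!
# Perfectly matched sets (in the complement graph) and splits
-/

namespace Pool.Agent.Q296.TC

set_option linter.unusedSectionVars false

open Finset

variable {V : Type*} [Fintype V] [DecidableEq V] (G : SimpleGraph V) [DecidableRel G.Adj]

/-- `U` is the union of disjoint pairs that are not edges of `G`. -/
inductive PM : Finset V → Prop
  | empty : PM ∅
  | add (a b : V) (U : Finset V) : a ∉ U → b ∉ U → a ≠ b → ¬ G.Adj a b → PM U →
      PM (insert a (insert b U))

variable {G}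

theorem PM.extract {U : Finset V} (h : PM G U) : ∀ a ∈ U, ∃ b ∈ U, b ≠ a ∧ ¬ G.Adj a b ∧
    PM G ((U.erase a).erase b) := by
  induction h with
  | empty => intro a ha; simp at ha
  | add a' b' U ha' hb' hab hadj hU ih =>
    intro a ha
    rcases Finset.mem_insert.mp ha with rfl | ha
    · refine ⟨b', by simp, hab.symm, hadj, ?_⟩
      rw [Finset.erase_insert (by simp [ha', hab]), Finset.erase_insert hb']
      exact hU
    · rcases Finset.mem_insert.mp ha with rfl | ha
      · refine ⟨a', by simp, hab, fun h => hadj h.symm, ?_⟩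
        have : ((insert a' (insert a U)).erase a).erase a' = U := by
          ext x
          simp only [Finset.mem_erase, Finset.mem_insert]
          constructor
          · rintro ⟨h1, h2, h3 | h3 | h3⟩
            · exact absurd h3 h1
            · exact absurd h3 h2
            · exact h3
          · intro hx
            exact ⟨fun h => ha' (h ▸ hx), fun h => hb' (h ▸ hx), Or.inr (Or.inr hx)⟩
        rw [this]; exact hU
      · obtain ⟨b, hbU, hba, hnadj, hpm⟩ := ih a ha
        refine ⟨b, by simp [hbU], hba, hnadj, ?_⟩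
        have h1 : a ≠ a' := fun h => ha' (h ▸ ha)
        have h2 : a ≠ b' := fun h => hb' (h ▸ ha)
        have h3 : b ≠ a' := fun h => ha' (h ▸ hbU)
        have h4 : b ≠ b' := fun h => hb' (h ▸ hbU)
        have : ((insert a' (insert b' U)).erase a).erase b
            = insert a' (insert b' ((U.erase a).erase b)) := by
          ext x
          simp only [Finset.mem_erase, Finset.mem_insert]
          constructor
          · rintro ⟨h5, h6, h7 | h7 | h7⟩
            · exact Or.inl h7
            · exact Or.inr (Or.inl h7)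
            · exact Or.inr (Or.inr ⟨h5, h6, h7⟩)
          · rintro (h7 | h7 | ⟨h5, h6, h7⟩)
            · subst h7; exact ⟨h3.symm, h1.symm, Or.inl rfl⟩
            · subst h7; exact ⟨h4.symm, h2.symm, Or.inr (Or.inl rfl)⟩
            · exact ⟨h5, h6, Or.inr (Or.inr h7)⟩
        rw [this]
        refine PM.add a' b' _ ?_ ?_ hab hadj hpm
        · intro h; exact ha' (Finset.mem_of_mem_erase (Finset.mem_of_mem_erase h))
        · intro h; exact hb' (Finset.mem_of_mem_erase (Finset.mem_of_mem_erase h))

/-- a vector vanishing on a matched set extends to a sign vector without lowering `Q` -/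
theorem PM.extend {U : Finset V} (h : PM G U) : ∀ y : V → ℤ, (∀ v ∈ U, y v = 0) →
    ∃ x : V → ℤ, (∀ v ∉ U, x v = y v) ∧ (∀ v ∈ U, x v = 1 ∨ x v = -1) ∧ Q G y ≤ Q G x := by
  induction h with
  | empty => intro y _; exact ⟨y, fun _ _ => rfl, by simp, le_rfl⟩
  | add a b U ha hb hab hadj hU ih =>
    intro y hy
    set z : V → ℤ := Pi.single a 1 - Pi.single b 1 with hz
    have hza : z a = 1 := by simp [hz, Pi.single_eq_of_ne hab]
    have hzb : z b = -1 := by simp [hz, Pi.single_eq_of_ne hab.symm]
    have hzo : ∀ v, v ≠ a → v ≠ b → z v = 0 := by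
      intro v h1 h2; simp [hz, Pi.single_eq_of_ne h1, Pi.single_eq_of_ne h2]
    have hQ := Q_parallelogram (G := G) y z
    rw [Q_pair hadj] at hQ
    have hya : y a = 0 := hy a (by simp)
    have hyb : y b = 0 := hy b (by simp)
    rcases le_total (Q G y) (Q G (y + z)) with hle | hle
    · obtain ⟨x, h1, h2, h3⟩ := ih (y + z) (by
        intro v hv
        have hva : v ≠ a := fun h => ha (h ▸ hv)
        have hvb : v ≠ b := fun h => hb (h ▸ hv)
        simp [hy v (by simp [hv]), hzo v hva hvb])
      refine ⟨x, ?_, ?_, hle.trans h3⟩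
      · intro v hv
        simp only [Finset.mem_insert, not_or] at hv
        rw [h1 v hv.2.2]; simp [hzo v hv.1 hv.2.1]
      · intro v hv
        rcases Finset.mem_insert.mp hv with rfl | hv
        · rw [h1 v ha]; simp [hya, hza]
        · rcases Finset.mem_insert.mp hv with rfl | hv
          · rw [h1 v hb]; simp [hyb, hzb]
          · exact h2 v hv
    · have hle' : Q G y ≤ Q G (y - z) := by linarith
      obtain ⟨x, h1, h2, h3⟩ := ih (y - z) (by
        intro v hv
        have hva : v ≠ a := fun h => ha (h ▸ hv)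
        have hvb : v ≠ b := fun h => hb (h ▸ hv)
        simp [hy v (by simp [hv]), hzo v hva hvb])
      refine ⟨x, ?_, ?_, hle'.trans h3⟩
      · intro v hv
        simp only [Finset.mem_insert, not_or] at hv
        rw [h1 v hv.2.2]; simp [hzo v hv.1 hv.2.1]
      · intro v hv
        rcases Finset.mem_insert.mp hv with rfl | hv
        · rw [h1 v ha]; simp [hya, hza]
        · rcases Finset.mem_insert.mp hv with rfl | hv
          · rw [h1 v hb]; simp [hyb, hzb]
          · exact h2 v hv

/-- `C0` -/
theorem UO.no_start (h : UO G) {U : Finset V} (hU : PM G U) (y : V → ℤ)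
    (hy0 : ∀ v ∈ U, y v = 0) (hy1 : ∀ v ∉ U, y v = 1 ∨ y v = -1) {a b : V} (ha : a ∉ U)
    (hb : b ∉ U) (hya : y a = 1) (hyb : y b = -1) : Q G y < 0 := by
  obtain ⟨x, h1, h2, h3⟩ := hU.extend y hy0
  refine lt_of_le_of_lt h3 (h.sign_neg x ?_ (a := a) (b := b) ?_ ?_)
  · intro v
    by_cases hv : v ∈ U
    · exact h2 v hv
    · rw [h1 v hv]; exact hy1 v hv
  · rw [h1 a ha]; exact hya
  · rw [h1 b hb]; exact hyb

/-- the complement of a strictly optimal graph has no perfect matching -/
theorem UO.no_pm (h : UO G) [Nonempty V] : ¬ PM G (univ : Finset V) := by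
  intro hpm
  obtain ⟨a⟩ := ‹Nonempty V›
  obtain ⟨b, -, hba, hadj, hU⟩ := hpm.extract a (mem_univ a)
  have hlt := h.no_start hU (Pi.single a 1 - Pi.single b 1) (a := a) (b := b) ?_ ?_ (by simp)
    (by simp) (by simp [Pi.single_eq_of_ne hba.symm]) (by simp [Pi.single_eq_of_ne hba])
  · rw [Q_pair hadj] at hlt
    exact lt_irrefl _ hlt
  · intro v hv
    have h2 : v ≠ b := (Finset.mem_erase.mp hv).1
    have h1 : v ≠ a := (Finset.mem_erase.mp (Finset.mem_erase.mp hv).2).1
    simp [Pi.single_eq_of_ne h1, Pi.single_eq_of_ne h2]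
  · intro v hv
    by_cases h1 : v = a
    · left; subst h1; simp [Pi.single_eq_of_ne hba.symm]
    · by_cases h2 : v = b
      · right; subst h2; simp [Pi.single_eq_of_ne hba]
      · exact absurd (by simp [h1, h2]) hv

theorem Q_lin (y : V → ℤ) (a : V) (c : ℤ) :
    Q G (y + Pi.single a c) = Q G y + 2 * c * ∑ v, q G a v * y v + c ^ 2 * q G a a := by
  unfold Q
  have e2 : ∀ (f : V → ℤ), ∑ w, f w * (Pi.single a c : V → ℤ) w = f a * c := by
    intro f
    rw [Finset.sum_eq_single a]
    · simp
    · intro w _ hw; simp [Pi.single_eq_of_ne hw]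
    · simp
  have h1 : ∀ v, ∑ w, q G v w * ((y + Pi.single a c : V → ℤ) v * (y + Pi.single a c : V → ℤ) w)
      = ∑ w, q G v w * (y v * y w) + (q G v a * y v) * c
        + (Pi.single a c : V → ℤ) v * (∑ w, q G v w * y w) + (q G v a * c) * (Pi.single a c : V → ℤ) v := by
    intro v
    have h2 : ∀ w, q G v w * ((y + Pi.single a c : V → ℤ) v * (y + Pi.single a c : V → ℤ) w)
        = q G v w * (y v * y w) + (q G v w * y v) * (Pi.single a c : V → ℤ) w
          + (Pi.single a c : V → ℤ) v * (q G v w * y w)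
          + (q G v w * (Pi.single a c : V → ℤ) v) * (Pi.single a c : V → ℤ) w := by
      intro w; simp only [Pi.add_apply]; ring
    simp_rw [h2]
    rw [Finset.sum_add_distrib, Finset.sum_add_distrib, Finset.sum_add_distrib, e2, e2,
      ← Finset.mul_sum]
    ring
  simp_rw [h1]
  rw [Finset.sum_add_distrib, Finset.sum_add_distrib, Finset.sum_add_distrib, ← Finset.sum_mul]
  have h3 : ∑ v, (Pi.single a c : V → ℤ) v * ∑ w, q G v w * y w = c * ∑ w, q G a w * y w := by
    have := e2 (fun v => ∑ w, q G v w * y w)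
    rw [← mul_comm (∑ w, q G a w * y w) c, ← this]
    exact Finset.sum_congr rfl fun v _ => mul_comm _ _
  have h4 : ∑ v, q G v a * c * (Pi.single a c : V → ℤ) v = q G a a * c * c := by
    have := e2 (fun v => q G v a * c)
    exact this
  have h5 : ∑ v, q G v a * y v = ∑ v, q G a v * y v :=
    Finset.sum_congr rfl fun v _ => by rw [q_symm]
  rw [h3, h4, h5]
  ring

/-- the value of the form on `e_x - e_y + e_z` for a path `x, y, z` of the complement -/
theorem Q_path {x y z : V} (h1 : ¬ G.Adj x y)
    (h2 : ¬ G.Adj y z) (h3 : G.Adj x z) :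
    Q G (Pi.single x 1 - Pi.single y 1 + Pi.single z 1)
      = 2 * pp V * dg G y - 2 * pp V * (dg G x + dg G z) + 2 * pp V ^ 2 + e2 G univ := by
  rw [Q_lin, Q_pair h1]
  have e2' : ∑ v, q G z v * (Pi.single x 1 - Pi.single y 1 : V → ℤ) v = q G z x - q G z y := by
    have e : ∀ v, q G z v * (Pi.single x 1 - Pi.single y 1 : V → ℤ) v
        = q G z v * (Pi.single x (1:ℤ) : V → ℤ) v - q G z v * (Pi.single y (1:ℤ) : V → ℤ) v := by
      intro v; simp only [Pi.sub_apply]; ring
    simp_rw [e]
    rw [Finset.sum_sub_distrib]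
    have e2 : ∀ c : V, ∑ w, q G z w * (Pi.single c (1:ℤ) : V → ℤ) w = q G z c := by
      intro c
      rw [Finset.sum_eq_single c]
      · simp
      · intro w _ hw; simp [Pi.single_eq_of_ne hw]
      · simp
    rw [e2, e2]
  rw [e2']
  unfold q
  have a1 : A G z x = 1 := by unfold A; rw [if_pos h3.symm]
  have a2 : A G z y = 0 := by unfold A; rw [if_neg (fun h => h2 h.symm)]
  rw [a1, a2, A_self]
  ring

theorem e2_nonneg (S : Finset V) : 0 ≤ e2 G S :=
  Finset.sum_nonneg fun _ _ => Finset.sum_nonneg fun _ _ => A_nonneg G _ _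

theorem dg_nonneg (x : V) : 0 ≤ dg G x := Finset.sum_nonneg fun _ _ => A_nonneg G _ _

/-- `C2` -/
theorem UO.no_path (h : UO G) {x y z : V} (hxy : x ≠ y) (hyz : y ≠ z) (hxz : x ≠ z)
    (h1 : ¬ G.Adj x y) (h2 : ¬ G.Adj y z) (h3 : G.Adj x z) (hd : dg G x + dg G z ≤ pp V)
    {U : Finset V} (hU : PM G U) (hmem : ∀ v, v ∉ U ↔ v = x ∨ v = y ∨ v = z) : False := by
  have hlt := h.no_start hU (Pi.single x 1 - Pi.single y 1 + Pi.single z 1) (a := x) (b := y)
    ?_ ?_ ((hmem x).2 (Or.inl rfl)) ((hmem y).2 (Or.inr (Or.inl rfl)))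
    (by simp [Pi.single_eq_of_ne hxy, Pi.single_eq_of_ne hxz])
    (by simp [Pi.single_eq_of_ne hxy.symm, Pi.single_eq_of_ne hyz])
  · rw [Q_path h1 h2 h3] at hlt
    have e1 := e2_nonneg (G := G) univ
    have e3 := dg_nonneg (G := G) y
    have e4 : 0 ≤ pp V := by unfold pp; positivity
    nlinarith [mul_nonneg e4 e3, mul_nonneg e4 (sub_nonneg.2 hd)]
  · intro v hv
    have := (not_iff_not.2 (hmem v)).1 (not_not.2 hv)
    push Not at this
    simp [Pi.single_eq_of_ne this.1, Pi.single_eq_of_ne this.2.1, Pi.single_eq_of_ne this.2.2]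
  · intro v hv
    rcases (hmem v).1 hv with rfl | rfl | rfl
    · left; simp [Pi.single_eq_of_ne hxy, Pi.single_eq_of_ne hxz]
    · right; simp [Pi.single_eq_of_ne hxy.symm, Pi.single_eq_of_ne hyz]
    · left; simp [Pi.single_eq_of_ne hxz.symm, Pi.single_eq_of_ne hyz.symm]

/-- every vertex has positive degree -/
theorem UO.exists_adj (h : UO G) (hp : 2 ≤ Fintype.card V) (v : V) : ∃ w, G.Adj v w := by
  by_contra hno
  push Not at hno
  have hd : dg G v = 0 := Finset.sum_eq_zero fun w _ => by unfold A; rw [if_neg (hno w)]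
  have hne : ({v}ᶜ : Finset V).Nonempty := by
    rw [← Finset.card_pos, Finset.card_compl, Finset.card_singleton]; omega
  have := h.set_neg {v} (by simp) hne
  simp only [Finset.sum_singleton, hd, Finset.card_singleton] at this
  have e1 := e2_nonneg (G := G) univ
  have e3 : e2 G {v} = 0 := by unfold e2; simp [A_self]
  rw [e3] at this
  simp at this
  linarith

end Pool.Agent.Q296.TC
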