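import Pool.Agent.Q296.TC.TriFree

/-!
# Partitions of maximum density
-/

namespace Pool.Agent.Q296.TC

set_option linter.unusedSectionVars false

open Finset

/-- The number of edges of `G` with both ends in `S`. -/
noncomputable def edgesIn {V : Type*} (G : SimpleGraph V) (S : Finset V) : ℕ :=
  {e ∈ G.edgeSet | ∀ v ∈ e, v ∈ S}.ncard

/-- The density of a partition of the vertex set: the sum of `|E(S)| / |S|` over its parts. -/
noncomputable def density {V : Type*} [Fintype V] [DecidableEq V] (G : SimpleGraph V)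
    (P : Finpartition (univ : Finset V)) : ℚ :=
  ∑ S ∈ P.parts, (edgesIn G S : ℚ) / S.card

variable {V : Type*} [Fintype V] [DecidableEq V] (G : SimpleGraph V)

theorem two_mul_edgesIn [DecidableRel G.Adj] (S : Finset V) :
    (2 * edgesIn G S : ℤ) = e2 G S := by
  classical
  let G' : SimpleGraph V :=
    { Adj := fun x y => G.Adj x y ∧ x ∈ S ∧ y ∈ S
      symm := ⟨fun x y h => ⟨h.1.symm, h.2.2, h.2.1⟩⟩
      loopless := ⟨fun x h => G.loopless.irrefl x h.1⟩ }
  have hG' : ∀ x y, G'.Adj x y ↔ G.Adj x y ∧ x ∈ S ∧ y ∈ S := fun x y => Iff.rfl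
  have h1 : {e ∈ G.edgeSet | ∀ v ∈ e, v ∈ S} = G'.edgeSet := by
    ext e
    induction e using Sym2.ind with
    | _ x y =>
      simp only [Set.mem_ofPred_eq, SimpleGraph.mem_edgeSet, Sym2.mem_iff, hG']
      constructor
      · rintro ⟨h, h'⟩; exact ⟨h, h' x (Or.inl rfl), h' y (Or.inr rfl)⟩
      · rintro ⟨h, hx, hy⟩
        refine ⟨h, ?_⟩
        rintro v (rfl | rfl) <;> assumption
  have h2 : edgesIn G S = G'.edgeFinset.card := by
    unfold edgesIn
    rw [h1, ← SimpleGraph.coe_edgeFinset, Set.ncard_coe_finset]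
  have h3 := G'.sum_degrees_eq_twice_card_edges
  have h4 : ∀ x, (G'.degree x : ℤ) = ∑ y, if G'.Adj x y then (1 : ℤ) else 0 := by
    intro x
    rw [Finset.sum_boole, ← SimpleGraph.card_neighborFinset_eq_degree]
    congr 2
    ext y; simp
  rw [h2]
  have h5 : ((∑ v, G'.degree v : ℕ) : ℤ) = 2 * (G'.edgeFinset.card : ℤ) := by
    rw [h3]; push_cast; ring
  rw [← h5]
  push_cast
  simp_rw [h4]
  unfold e2 A
  have h6 : ∀ x, (∑ y, if G'.Adj x y then (1 : ℤ) else 0)
      = if x ∈ S then ∑ y ∈ S, (if G.Adj x y then (1:ℤ) else 0) else 0 := by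
    intro x
    split_ifs with hx
    · rw [← Finset.sum_filter_add_sum_filter_not univ (fun y => y ∈ S)]
      have a1 : ∑ y ∈ univ.filter (fun y => ¬ y ∈ S), (if G'.Adj x y then (1 : ℤ) else 0) = 0 := by
        refine Finset.sum_eq_zero fun y hy => ?_
        rw [if_neg]; intro h; exact (Finset.mem_filter.mp hy).2 ((hG' x y).1 h).2.2
      have a2 : univ.filter (fun y => y ∈ S) = S := by ext y; simp
      rw [a1, add_zero, a2]
      refine Finset.sum_congr rfl fun y hy => ?_
      by_cases h : G.Adj x y
      · rw [if_pos h, if_pos ((hG' x y).2 ⟨h, hx, hy⟩)]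
      · rw [if_neg h, if_neg (fun h' => h ((hG' x y).1 h').1)]
    · refine Finset.sum_eq_zero fun y _ => ?_
      rw [if_neg]; intro h; exact hx ((hG' x y).1 h).2.1
  simp_rw [h6]
  rw [← Finset.sum_filter]
  congr 1
  ext x; simp

/-- A partition of maximum density. -/
def IsOptimal (P : Finpartition (univ : Finset V)) : Prop :=
  ∀ Q : Finpartition (univ : Finset V), density G Q ≤ density G P

theorem exists_opt : ∃ P : Finpartition (univ : Finset V), IsOptimal G P ∧
    ∀ Q : Finpartition (univ : Finset V), IsOptimal G Q → Q.parts.card ≤ P.parts.card := by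
  classical
  obtain ⟨P0, -, hP0⟩ := Finset.exists_max_image (univ : Finset (Finpartition (univ : Finset V)))
    (density G) ⟨⊥, by simp⟩
  have h0 : IsOptimal G P0 := fun Q => hP0 Q (mem_univ Q)
  obtain ⟨P, hP, hmax⟩ := Finset.exists_max_image
    ((univ : Finset (Finpartition (univ : Finset V))).filter (IsOptimal G))
    (fun Q => Q.parts.card) ⟨P0, by simp [h0]⟩
  exact ⟨P, (Finset.mem_filter.mp hP).2, fun Q hQ => hmax Q (by simp [hQ])⟩

/-- split one part -/
theorem exists_split (P : Finpartition (univ : Finset V)) {S : Finset V} (hS : S ∈ P.parts)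
    {T1 T2 : Finset V} (h1 : T1.Nonempty) (h2 : T2.Nonempty) (hdisj : Disjoint T1 T2)
    (hun : T1 ∪ T2 = S) :
    ∃ Q : Finpartition (univ : Finset V), Q.parts.card = P.parts.card + 1 ∧
      density G Q = density G P - (edgesIn G S : ℚ) / S.card + (edgesIn G T1 : ℚ) / T1.card
        + (edgesIn G T2 : ℚ) / T2.card := by
  classical
  have hT1S : T1 ⊆ S := hun ▸ Finset.subset_union_left
  have hT2S : T2 ⊆ S := hun ▸ Finset.subset_union_right
  have hdisjP : ∀ T ∈ P.parts, T ≠ S → Disjoint T S := fun T hT hne => P.disjoint hT hS hne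
  have hn1 : T1 ∉ P.parts.erase S := by
    intro h
    obtain ⟨hne, hm⟩ := Finset.mem_erase.mp h
    obtain ⟨x, hx⟩ := h1
    exact (Finset.disjoint_left.mp (hdisjP T1 hm hne) hx) (hT1S hx)
  have hn2 : T2 ∉ P.parts.erase S := by
    intro h
    obtain ⟨hne, hm⟩ := Finset.mem_erase.mp h
    obtain ⟨x, hx⟩ := h2
    exact (Finset.disjoint_left.mp (hdisjP T2 hm hne) hx) (hT2S hx)
  have hn12 : T1 ≠ T2 := by
    rintro rfl
    obtain ⟨x, hx⟩ := h1
    exact Finset.disjoint_left.mp hdisj hx hx
  have hn1' : T1 ∉ insert T2 (P.parts.erase S) := by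
    simp only [Finset.mem_insert, not_or]; exact ⟨hn12, hn1⟩
  let Q : Finpartition (univ : Finset V) := Finpartition.ofExistsUnique
    (insert T1 (insert T2 (P.parts.erase S))) (fun p _ => Finset.subset_univ p)
    (by
      intro a _
      by_cases haS : a ∈ S
      · have ha12 : a ∈ T1 ∪ T2 := hun ▸ haS
        have hother : ∀ T ∈ P.parts.erase S, a ∉ T := by
          intro T hT haT
          obtain ⟨hne, hm⟩ := Finset.mem_erase.mp hT
          exact Finset.disjoint_left.mp (hdisjP T hm hne) haT haS
        rcases Finset.mem_union.mp ha12 with ha | ha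
        · refine ⟨T1, ⟨by simp, ha⟩, ?_⟩
          rintro T ⟨hT, haT⟩
          rcases Finset.mem_insert.mp hT with rfl | hT
          · rfl
          · rcases Finset.mem_insert.mp hT with rfl | hT
            · exact absurd haT (Finset.disjoint_left.mp hdisj ha)
            · exact absurd haT (hother T hT)
        · refine ⟨T2, ⟨by simp, ha⟩, ?_⟩
          rintro T ⟨hT, haT⟩
          rcases Finset.mem_insert.mp hT with rfl | hT
          · exact absurd ha (Finset.disjoint_left.mp hdisj haT)
          · rcases Finset.mem_insert.mp hT with rfl | hT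
            · rfl
            · exact absurd haT (hother T hT)
      · obtain ⟨T, ⟨hT, haT⟩, huniq⟩ := P.existsUnique_mem (mem_univ a)
        have hTS : T ≠ S := fun h => haS (h ▸ haT)
        refine ⟨T, ⟨by simp [hT, hTS], haT⟩, ?_⟩
        rintro T' ⟨hT', haT'⟩
        rcases Finset.mem_insert.mp hT' with rfl | hT'
        · exact absurd (hT1S haT') haS
        · rcases Finset.mem_insert.mp hT' with rfl | hT'
          · exact absurd (hT2S haT') haS
          · exact huniq T' ⟨(Finset.mem_erase.mp hT').2, haT'⟩)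
    (by
      simp only [Finset.mem_insert, not_or]
      refine ⟨fun h => h1.ne_empty h.symm, fun h => h2.ne_empty h.symm, ?_⟩
      intro h
      exact P.bot_notMem (Finset.mem_of_mem_erase h))
  have hQ : Q.parts = insert T1 (insert T2 (P.parts.erase S)) := rfl
  refine ⟨Q, ?_, ?_⟩
  · rw [hQ, Finset.card_insert_of_notMem hn1', Finset.card_insert_of_notMem hn2,
      Finset.card_erase_of_mem hS]
    have := Finset.card_pos.mpr ⟨S, hS⟩
    omega
  · unfold density
    rw [hQ, Finset.sum_insert hn1', Finset.sum_insert hn2, ← Finset.add_sum_erase _ _ hS]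
    ring

theorem e2_map (S : Finset V) [DecidableRel G.Adj] (T : Finset ((S : Set V) : Type _))
    [DecidableRel (G.induce (S : Set V)).Adj] :
    e2 (G.induce (S : Set V)) T = e2 G (T.map (Function.Embedding.subtype _)) := by
  unfold e2
  rw [Finset.sum_map]
  refine Finset.sum_congr rfl fun x _ => ?_
  rw [Finset.sum_map]
  refine Finset.sum_congr rfl fun y _ => ?_
  unfold A
  simp only [Function.Embedding.subtype_apply]
  by_cases h : G.Adj (x : V) (y : V)
  · rw [if_pos (show (G.induce (S : Set V)).Adj x y from h), if_pos h]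
  · rw [if_neg (show ¬ (G.induce (S : Set V)).Adj x y from h), if_neg h]

/-- every part of an optimal partition with most parts beats its splits -/
theorem uo_of_opt {P : Finpartition (univ : Finset V)} (hopt : IsOptimal G P)
    (hmax : ∀ Q : Finpartition (univ : Finset V), IsOptimal G Q → Q.parts.card ≤ P.parts.card)
    {S : Finset V} (hS : S ∈ P.parts) [DecidableRel (G.induce (S : Set V)).Adj] :
    UO (G.induce (S : Set V)) := by
  classical
  intro T hT hTc
  by_contra hge
  push Not at hge
  set T1 := T.map (Function.Embedding.subtype _) with hT1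
  set T2 := Tᶜ.map (Function.Embedding.subtype _) with hT2
  have hc1 : T1.card = T.card := Finset.card_map _
  have hc2 : T2.card = Tᶜ.card := Finset.card_map _
  have hdisj : Disjoint T1 T2 := by
    rw [hT1, hT2, Finset.disjoint_map]; exact disjoint_compl_right
  have hun : T1 ∪ T2 = S := by
    rw [hT1, hT2, ← Finset.map_union, Finset.union_compl]
    ext x; simp
  have hcard : Fintype.card ((S : Set V) : Type _) = S.card := by simp
  obtain ⟨Q, hQc, hQd⟩ := exists_split G P hS (hT.map) (hTc.map) hdisj hun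
  have hf : ∀ W : Finset V, (edgesIn G W : ℚ) = (e2 G W : ℚ) / 2 := by
    intro W
    have := two_mul_edgesIn G W
    have h' : ((2 * edgesIn G W : ℤ) : ℚ) = (e2 G W : ℚ) := by rw [this]
    push_cast at h'
    linarith
  have hu : (univ : Finset ((S : Set V) : Type _)).map (Function.Embedding.subtype _) = S := by
    ext x; simp
  rw [e2_map, e2_map, e2_map, hu, hcard, ← hT1, ← hT2, ← hc1, ← hc2] at hge
  have hle : density G P ≤ density G Q := by
    rw [hQd, hf, hf, hf]
    have e1 : (e2 G S : ℚ) / 2 / S.card = ((e2 G S : ℚ) / S.card) / 2 := by ring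
    have e2' : (e2 G T1 : ℚ) / 2 / T1.card = ((e2 G T1 : ℚ) / T1.card) / 2 := by ring
    have e3 : (e2 G T2 : ℚ) / 2 / T2.card = ((e2 G T2 : ℚ) / T2.card) / 2 := by ring
    rw [e1, e2', e3]
    linarith
  have hQopt : IsOptimal G Q := fun R => (hopt R).trans hle
  have := hmax Q hQopt
  omega

end Pool.Agent.Q296.TC
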