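import Pool.Agent.Q296.TC.Match

/-!
# Triangle-free graphs that beat all their splits are complete bipartite
-/

namespace Pool.Agent.Q296.TC

set_option linter.unusedSectionVars false

open Finset

variable {V : Type*} [Fintype V] [DecidableEq V] {G : SimpleGraph V} [DecidableRel G.Adj]

/-- no triangles -/
def TF (G : SimpleGraph V) : Prop := ∀ x y z, G.Adj x y → G.Adj y z → ¬ G.Adj x z

/-- complete bipartite with two nonempty classes `K` and its complement -/
def CB (G : SimpleGraph V) : Prop :=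
  ∃ K : V → Prop, (∃ x, K x) ∧ (∃ x, ¬ K x) ∧ ∀ x y, G.Adj x y ↔ (K x ↔ ¬ K y)

theorem TF.deg_le (ht : TF G) {x z : V} (h : G.Adj x z) : dg G x + dg G z ≤ pp V := by
  unfold dg pp
  rw [← Finset.sum_add_distrib]
  calc ∑ w, (A G x w + A G z w) ≤ ∑ _w : V, (1 : ℤ) := by
        refine Finset.sum_le_sum fun w _ => ?_
        unfold A
        by_cases h1 : G.Adj x w
        · by_cases h2 : G.Adj z w
          · exact absurd h (ht x w z h1 h2.symm)
          · rw [if_pos h1, if_neg h2]; norm_num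
        · rw [if_neg h1]; split_ifs <;> norm_num
    _ = _ := by simp

/-- from a triangle-free graph in which the vertices are classified -/
theorem CB.of_classes (K : V → Prop) (h1 : ∃ x, K x) (h2 : ∃ x, ¬ K x)
    (hKK : ∀ x y, K x → K y → ¬ G.Adj x y) (hLL : ∀ x y, ¬ K x → ¬ K y → ¬ G.Adj x y)
    (hKL : ∀ x y, K x → ¬ K y → G.Adj x y) : CB G := by
  refine ⟨K, h1, h2, fun x y => ?_⟩
  by_cases hx : K x <;> by_cases hy : K y
  · simp [hx, hy, hKK x y hx hy]
  · simp [hx, hy, hKL x y hx hy]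
  · simp [hx, hy, (hKL y x hy hx).symm]
  · simp [hx, hy, hLL x y hx hy]

theorem PM.add' {a b : V} {U W : Finset V} (hU : PM G U) (ha : a ∉ U) (hb : b ∉ U) (hab : a ≠ b)
    (hadj : ¬ G.Adj a b) (hW : ∀ v, v ∈ W ↔ v = a ∨ v = b ∨ v ∈ U) : PM G W := by
  have : W = insert a (insert b U) := by
    ext v; simp [hW]
  rw [this]
  exact PM.add a b U ha hb hab hadj hU

/-- a matched set of maximal size -/
theorem exists_max_pm (G : SimpleGraph V) : ∃ U : Finset V, PM G U ∧ ∀ W, PM G W → W.card ≤ U.card := by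
  classical
  obtain ⟨U, hU, hmax⟩ := Finset.exists_max_image ((univ : Finset (Finset V)).filter (PM G))
    (fun U => U.card) ⟨∅, by simp [PM.empty]⟩
  refine ⟨U, (Finset.mem_filter.mp hU).2, fun W hW => hmax W (by simp [hW])⟩

/-- two unmatched vertices: the graph is complete bipartite -/
theorem two_unmatched (ht : TF G) {U : Finset V} (hU : PM G U)
    (hmax : ∀ W, PM G W → W.card ≤ U.card) {u1 u2 : V} (h1 : u1 ∉ U) (h2 : u2 ∉ U)
    (hne : u1 ≠ u2) : CB G := by
  have hmax' : ∀ a b, a ∉ U → b ∉ U → a ≠ b → G.Adj a b := by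
    intro a b ha hb hab
    by_contra hadj
    have := hmax _ (PM.add a b U ha hb hab hadj hU)
    rw [Finset.card_insert_of_notMem (by simp [ha, hab]), Finset.card_insert_of_notMem hb] at this
    omega
  have h12 : G.Adj u1 u2 := hmax' u1 u2 h1 h2 hne
  -- types of matched vertices
  have htype : ∀ a b, a ∈ U → b ∈ U → b ≠ a → PM G ((U.erase a).erase b) →
      (G.Adj a u1 ∧ G.Adj b u1 ∧ ¬ G.Adj a u2 ∧ ¬ G.Adj b u2) ∨
      (G.Adj a u2 ∧ G.Adj b u2 ∧ ¬ G.Adj a u1 ∧ ¬ G.Adj b u1) := by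
    intro a b ha hb hba hpm
    have ha1 : a ≠ u1 := fun h => h1 (h ▸ ha)
    have ha2 : a ≠ u2 := fun h => h2 (h ▸ ha)
    have hb1 : b ≠ u1 := fun h => h1 (h ▸ hb)
    have hb2 : b ≠ u2 := fun h => h2 (h ▸ hb)
    have key : ∀ c d e f : V, (c = a ∧ d = b) ∨ (c = b ∧ d = a) → (e = u1 ∧ f = u2) ∨ (e = u2 ∧ f = u1) →
        G.Adj c e ∨ G.Adj d f := by
      intro c d e f hcd hef
      by_contra hcon
      push Not at hcon
      have hc1 : c ≠ e := by rcases hcd with ⟨rfl, rfl⟩ | ⟨rfl, rfl⟩ <;> rcases hef with ⟨rfl, rfl⟩ | ⟨rfl, rfl⟩ <;> assumption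
      have hd1 : d ≠ f := by rcases hcd with ⟨rfl, rfl⟩ | ⟨rfl, rfl⟩ <;> rcases hef with ⟨rfl, rfl⟩ | ⟨rfl, rfl⟩ <;> assumption
      have p1 : PM G (insert c (insert e ((U.erase a).erase b))) := by
        refine PM.add c e _ ?_ ?_ hc1 hcon.1 hpm
        · rcases hcd with ⟨rfl, rfl⟩ | ⟨rfl, rfl⟩ <;> simp
        · rcases hef with ⟨rfl, rfl⟩ | ⟨rfl, rfl⟩ <;> simp [h1, h2]
      have p2 : PM G (insert d (insert f (insert c (insert e ((U.erase a).erase b))))) := by
        refine PM.add d f _ ?_ ?_ hd1 hcon.2 p1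
        · rcases hcd with ⟨rfl, rfl⟩ | ⟨rfl, rfl⟩ <;> rcases hef with ⟨rfl, rfl⟩ | ⟨rfl, rfl⟩ <;>
            simp [hba, hba.symm, ha1, ha2, hb1, hb2]
        · rcases hcd with ⟨rfl, rfl⟩ | ⟨rfl, rfl⟩ <;> rcases hef with ⟨rfl, rfl⟩ | ⟨rfl, rfl⟩ <;>
            simp [h1, h2, hne, hne.symm, ha1.symm, ha2.symm, hb1.symm, hb2.symm]
      have hcard := hmax _ p2
      have hsub : insert u1 (insert u2 U) ⊆ insert d (insert f (insert c (insert e ((U.erase a).erase b)))) := by
        intro v hv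
        simp only [Finset.mem_insert, Finset.mem_erase] at hv ⊢
        by_cases hva : v = a
        · rcases hcd with ⟨rfl, rfl⟩ | ⟨rfl, rfl⟩ <;> simp [hva]
        · by_cases hvb : v = b
          · rcases hcd with ⟨rfl, rfl⟩ | ⟨rfl, rfl⟩ <;> simp [hvb]
          · rcases hv with hv | hv | hv
            · rcases hef with ⟨rfl, rfl⟩ | ⟨rfl, rfl⟩ <;> simp [hv]
            · rcases hef with ⟨rfl, rfl⟩ | ⟨rfl, rfl⟩ <;> simp [hv]
            · simp [hva, hvb, hv]
      have := Finset.card_le_card hsub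
      rw [Finset.card_insert_of_notMem (by simp [h1, hne]), Finset.card_insert_of_notMem h2] at this
      omega
    have hn : ∀ c, ¬ (G.Adj c u1 ∧ G.Adj c u2) := by
      intro c ⟨hc1, hc2⟩
      exact ht u1 c u2 hc1.symm hc2 h12
    have k1 := key a b u1 u2 (Or.inl ⟨rfl, rfl⟩) (Or.inl ⟨rfl, rfl⟩)
    have k2 := key a b u2 u1 (Or.inl ⟨rfl, rfl⟩) (Or.inr ⟨rfl, rfl⟩)
    have na := hn a
    have nb := hn b
    tauto
  -- every vertex has exactly one type
  have hall : ∀ v, (G.Adj v u1 ∧ ¬ G.Adj v u2) ∨ (G.Adj v u2 ∧ ¬ G.Adj v u1) := by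
    intro v
    by_cases hv : v ∈ U
    · obtain ⟨b, hb, hba, -, hpm⟩ := hU.extract v hv
      rcases htype v b hv hb hba hpm with h | h
      · exact Or.inl ⟨h.1, h.2.2.1⟩
      · exact Or.inr ⟨h.1, h.2.2.1⟩
    · by_cases hv1 : v = u1
      · subst hv1; exact Or.inr ⟨h12, G.loopless.irrefl _⟩
      · by_cases hv2 : v = u2
        · subst hv2; exact Or.inl ⟨h12.symm, G.loopless.irrefl _⟩
        · exact absurd h12 (ht u1 v u2 (hmax' u1 v h1 hv (Ne.symm hv1)) (hmax' v u2 hv h2 hv2))
  refine CB.of_classes (fun v => G.Adj v u1) ⟨u2, h12.symm⟩ ⟨u1, G.loopless.irrefl _⟩ ?_ ?_ ?_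
  · intro x y hx hy hxy
    exact ht x u1 y hx hy.symm hxy
  · intro x y hx hy hxy
    have hx2 : G.Adj x u2 := by rcases hall x with h | h; exact absurd h.1 hx; exact h.1
    have hy2 : G.Adj y u2 := by rcases hall y with h | h; exact absurd h.1 hy; exact h.1
    exact ht x u2 y hx2 hy2.symm hxy
  · intro c2 c1 hc2 hc1
    by_contra hadj
    have hc12 : G.Adj c1 u2 := by rcases hall c1 with h | h; exact absurd h.1 hc1; exact h.1
    -- c1 of type u2, c2 of type u1
    have hc2' : ¬ G.Adj c2 u2 := by rcases hall c2 with h | h; exact h.2; exact absurd hc2 h.2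
    have hne12 : c1 ≠ c2 := fun h => hc1 (h ▸ hc2)
    have hc1U : c1 ∈ U := by
      by_contra hc
      have hc1u2 : c1 ≠ u2 := fun h => G.loopless.irrefl u2 (h ▸ hc12)
      have hc1u1 : c1 = u1 := by
        by_contra hne'
        exact hc1 (hmax' c1 u1 hc h1 hne')
      exact hadj (hc1u1 ▸ hc2)
    have hc2U : c2 ∈ U := by
      by_contra hc
      have hc2u2 : c2 = u2 := by
        by_contra hne'
        exact hc2' (hmax' c2 u2 hc h2 hne')
      exact hadj (hc2u2 ▸ hc12.symm)
    obtain ⟨b1, hb1, hb1c, hb1adj, hp1⟩ := hU.extract c1 hc1U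
    have t1 := htype c1 b1 hc1U hb1 hb1c hp1
    have hb1u1 : ¬ G.Adj b1 u1 := by
      rcases t1 with h | h
      · exact absurd h.1 hc1
      · exact h.2.2.2
    have hc2b1 : c2 ≠ b1 := fun h => hb1u1 (h ▸ hc2)
    have hc2m : c2 ∈ (U.erase c1).erase b1 := by simp [hc2b1, hne12.symm, hc2U]
    obtain ⟨b2, hb2, hb2c, hb2adj, hp2⟩ := hp1.extract c2 hc2m
    have hb2b1 : b2 ≠ b1 := (Finset.mem_erase.mp hb2).1
    have hb2c1 : b2 ≠ c1 := (Finset.mem_erase.mp (Finset.mem_erase.mp hb2).2).1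
    have hb2U : b2 ∈ U := (Finset.mem_erase.mp (Finset.mem_erase.mp hb2).2).2
    have hp3 : PM G ((U.erase c2).erase b2) := by
      refine PM.add' (a := c1) (b := b1) hp2 ?_ ?_ hb1c.symm hb1adj ?_
      · simp
      · simp
      · intro v
        simp only [Finset.mem_erase]
        constructor
        · rintro ⟨e1, e2, e3⟩
          by_cases e4 : v = c1
          · exact Or.inl e4
          · by_cases e5 : v = b1
            · exact Or.inr (Or.inl e5)
            · exact Or.inr (Or.inr ⟨e1, e2, e5, e4, e3⟩)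
        · rintro (rfl | rfl | ⟨e1, e2, e3, e4, e5⟩)
          · exact ⟨hb2c1.symm, hne12, hc1U⟩
          · exact ⟨hb2b1.symm, hc2b1.symm, hb1⟩
          · exact ⟨e1, e2, e5⟩
    have t2 := htype c2 b2 hc2U hb2U hb2c hp3
    have hb2u2 : ¬ G.Adj b2 u2 := by
      rcases t2 with h | h
      · exact h.2.2.2
      · exact absurd h.1 hc2'
    -- rematch
    have n1 : c1 ≠ u1 := fun h => h1 (h ▸ hc1U)
    have n2 : c1 ≠ u2 := fun h => h2 (h ▸ hc1U)
    have n3 : c2 ≠ u1 := fun h => h1 (h ▸ hc2U)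
    have n4 : c2 ≠ u2 := fun h => h2 (h ▸ hc2U)
    have n5 : b1 ≠ u1 := fun h => h1 (h ▸ hb1)
    have n6 : b1 ≠ u2 := fun h => h2 (h ▸ hb1)
    have n7 : b2 ≠ u1 := fun h => h1 (h ▸ hb2U)
    have n8 : b2 ≠ u2 := fun h => h2 (h ▸ hb2U)
    have r1 : PM G (insert c1 (insert c2 ((((U.erase c1).erase b1).erase c2).erase b2))) :=
      PM.add c1 c2 _ (by simp) (by simp) hne12 (fun h => hadj h.symm) hp2
    have r2 : PM G (insert b1 (insert u1 (insert c1 (insert c2
        ((((U.erase c1).erase b1).erase c2).erase b2))))) :=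
      PM.add b1 u1 _ (by simp [hb1c, hc2b1.symm]) (by simp [n1.symm, n3.symm, h1]) n5 hb1u1 r1
    have r3 : PM G (insert b2 (insert u2 (insert b1 (insert u1 (insert c1 (insert c2
        ((((U.erase c1).erase b1).erase c2).erase b2))))))) :=
      PM.add b2 u2 _ (by simp [hb2b1, n7, hb2c1, hb2c])
        (by simp [n6.symm, hne.symm, n2.symm, n4.symm, h2]) n8 hb2u2 r2
    have hcard := hmax _ r3
    have hsub : insert u1 (insert u2 U) ⊆ insert b2 (insert u2 (insert b1 (insert u1 (insert c1 (insert c2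
        ((((U.erase c1).erase b1).erase c2).erase b2)))))) := by
      intro v hv
      simp only [Finset.mem_insert, Finset.mem_erase] at hv ⊢
      tauto
    have := Finset.card_le_card hsub
    rw [Finset.card_insert_of_notMem (by simp [h1, hne]), Finset.card_insert_of_notMem h2] at this
    omega

/-- exactly one unmatched vertex -/
theorem one_unmatched (h : UO G) (ht : TF G) (hp : 2 ≤ Fintype.card V) {U : Finset V}
    (hU : PM G U) {x : V} (hx : ∀ v, v ∉ U ↔ v = x) : CB G := by
  have hxU : x ∉ U := (hx x).2 rfl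
  have hmem : ∀ v, v ≠ x → v ∈ U := fun v hv => by
    by_contra hc; exact hv ((hx v).1 hc)
  -- tightness
  have tight : ∀ v y z : V, v ≠ y → y ≠ z → v ≠ z → ¬ G.Adj y z → ∀ W : Finset V, PM G W →
      (∀ w, w ∉ W ↔ w = v ∨ w = y ∨ w = z) → ¬ G.Adj v y → ¬ G.Adj v z := by
    intro v y z hvy hyz hvz hnyz W hW hWm hnvy hvz'
    exact h.no_path hvy hyz hvz hnvy hnyz hvz' (ht.deg_le hvz') hW hWm
  obtain ⟨c0, hc0⟩ := h.exists_adj hp x
  by_cases hall : ∀ a, a ≠ x → ¬ G.Adj x a → ∀ c, G.Adj x c → G.Adj a c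
  · -- complete bipartite
    refine CB.of_classes (fun v => G.Adj x v) ⟨c0, hc0⟩ ⟨x, G.loopless.irrefl _⟩ ?_ ?_ ?_
    · intro a b ha hb hab
      exact ht x a b ha hab hb
    · intro a b ha hb hab
      by_cases hax : a = x
      · subst hax; exact hb hab
      · by_cases hbx : b = x
        · subst hbx; exact ha hab.symm
        · exact ht a c0 b (hall a hax ha c0 hc0) (hall b hbx hb c0 hc0).symm hab
    · intro c a hc ha
      by_cases hax : a = x
      · subst hax; exact hc.symm
      · exact (hall a hax ha c hc).symm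
  · exfalso
    push Not at hall
    obtain ⟨a, hax, hxa, c, hxc, hac⟩ := hall
    have haU := hmem a hax
    have hcx : c ≠ x := fun e => G.loopless.irrefl x (e ▸ hxc)
    have hca : c ≠ a := fun e => hxa (e ▸ hxc)
    obtain ⟨b, hb, hba, habadj, hp1⟩ := hU.extract a haU
    have hbx : b ≠ x := fun e => hxU (e ▸ hb)
    have hxb : ¬ G.Adj x b := by
      refine tight x a b hax.symm hba.symm hbx.symm habadj _ hp1 ?_ hxa
      intro w
      simp only [Finset.mem_erase, not_and_or, not_not, hx]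
      tauto
    have hcb : c ≠ b := fun e => hxb (e ▸ hxc)
    have hcm : c ∈ (U.erase a).erase b := by simp [hcb, hca, hmem c hcx]
    obtain ⟨d, hd, hdc, hcdadj, hp2⟩ := hp1.extract c hcm
    have hdb : d ≠ b := (Finset.mem_erase.mp hd).1
    have hda : d ≠ a := (Finset.mem_erase.mp (Finset.mem_erase.mp hd).2).1
    have hdU : d ∈ U := (Finset.mem_erase.mp (Finset.mem_erase.mp hd).2).2
    have hdx : d ≠ x := fun e => hxU (e ▸ hdU)
    set U2 := (((U.erase a).erase b).erase c).erase d with hU2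
    have hmem2 : ∀ v, v ∉ U2 ↔ v = x ∨ v = a ∨ v = b ∨ v = c ∨ v = d := by
      intro v
      simp only [hU2, Finset.mem_erase, not_and_or, not_not, hx]
      tauto
    -- x vs (c,d): Adj x d
    have hxd : G.Adj x d := by
      by_contra hn
      have hW : PM G (insert a (insert b U2)) :=
        PM.add a b U2 ((hmem2 a).2 (by simp)) ((hmem2 b).2 (by simp)) hba.symm habadj hp2
      refine tight x d c hdx.symm hdc hcx.symm (fun e => hcdadj e.symm) _ hW ?_ hn hxc
      intro w
      simp only [Finset.mem_insert, not_or, hmem2]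
      constructor
      · rintro ⟨e1, e2, e3 | e3 | e3 | e3 | e3⟩ <;> tauto
      · rintro (rfl | rfl | rfl)
        · exact ⟨hax.symm, hbx.symm, by simp⟩
        · exact ⟨hda, hdb, by simp⟩
        · exact ⟨hca, hcb, by simp⟩
    -- a ~ d
    have hadn : ¬ G.Adj a d := by
      have hW : PM G (insert x (insert b U2)) :=
        PM.add x b U2 ((hmem2 x).2 (by simp)) ((hmem2 b).2 (by simp)) hbx.symm hxb hp2
      refine tight a c d hca.symm hdc.symm hda.symm hcdadj _ hW ?_ hac
      intro w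
      simp only [Finset.mem_insert, not_or, hmem2]
      constructor
      · rintro ⟨e1, e2, e3 | e3 | e3 | e3 | e3⟩ <;> tauto
      · rintro (rfl | rfl | rfl)
        · exact ⟨hax, hba.symm, by simp⟩
        · exact ⟨hcx, hcb, by simp⟩
        · exact ⟨hdx, hdb, by simp⟩
    -- b adjacent to c and d
    have hdbadj : G.Adj d b := by
      by_contra hn
      have hW : PM G (insert a (insert c U2)) :=
        PM.add a c U2 ((hmem2 a).2 (by simp)) ((hmem2 c).2 (by simp)) hca.symm hac hp2
      refine tight d b x hdb hbx hdx (fun e => hxb e.symm) _ hW ?_ hn hxd.symm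
      intro w
      simp only [Finset.mem_insert, not_or, hmem2]
      constructor
      · rintro ⟨e1, e2, e3 | e3 | e3 | e3 | e3⟩ <;> tauto
      · rintro (rfl | rfl | rfl)
        · exact ⟨hda, hdc, by simp⟩
        · exact ⟨hba, hcb.symm, by simp⟩
        · exact ⟨hax.symm, hcx.symm, by simp⟩
    have hcbadj : G.Adj c b := by
      by_contra hn
      have hW : PM G (insert a (insert d U2)) :=
        PM.add a d U2 ((hmem2 a).2 (by simp)) ((hmem2 d).2 (by simp)) hda.symm hadn hp2
      refine tight c b x hcb hbx hcx (fun e => hxb e.symm) _ hW ?_ hn hxc.symm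
      intro w
      simp only [Finset.mem_insert, not_or, hmem2]
      constructor
      · rintro ⟨e1, e2, e3 | e3 | e3 | e3 | e3⟩ <;> tauto
      · rintro (rfl | rfl | rfl)
        · exact ⟨hca, hdc.symm, by simp⟩
        · exact ⟨hba, hdb.symm, by simp⟩
        · exact ⟨hax.symm, hdx.symm, by simp⟩
    -- a neighbour e of a
    obtain ⟨e, hae⟩ := h.exists_adj hp a
    have hea : e ≠ a := fun k => G.loopless.irrefl a (k ▸ hae)
    have hex : e ≠ x := fun k => hxa (k ▸ hae).symm
    have heb : e ≠ b := fun k => habadj (k ▸ hae)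
    have hec : e ≠ c := fun k => hac (k ▸ hae)
    have hed : e ≠ d := fun k => hadn (k ▸ hae)
    have heU2 : e ∈ U2 := by
      by_contra hc
      rcases (hmem2 e).1 hc with k | k | k | k | k <;> contradiction
    obtain ⟨f, hf, hfe, hefadj, hp3⟩ := hp2.extract e heU2
    have hfm : f ∈ U2 := hf
    have hfx : f ≠ x := fun k => (hmem2 f).2 (Or.inl k) hfm
    have hfa : f ≠ a := fun k => (hmem2 f).2 (by simp [k]) hfm
    have hfb : f ≠ b := fun k => (hmem2 f).2 (by simp [k]) hfm
    have hfc : f ≠ c := fun k => (hmem2 f).2 (by simp [k]) hfm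
    have hfd : f ≠ d := fun k => (hmem2 f).2 (by simp [k]) hfm
    set U3 := (U2.erase e).erase f with hU3
    have hmem3 : ∀ v, v ∉ U3 ↔ v = x ∨ v = a ∨ v = b ∨ v = c ∨ v = d ∨ v = e ∨ v = f := by
      intro v
      have := hmem2 v
      simp only [hU3, Finset.mem_erase, not_and_or, not_not]
      tauto
    clear_value U3
    have nx : x ∉ U3 := (hmem3 x).2 (by simp)
    have na : a ∉ U3 := (hmem3 a).2 (by simp)
    have nb : b ∉ U3 := (hmem3 b).2 (by simp)
    have nc : c ∉ U3 := (hmem3 c).2 (by simp)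
    have nd : d ∉ U3 := (hmem3 d).2 (by simp)
    have ne : e ∉ U3 := (hmem3 e).2 (by simp)
    have nf : f ∉ U3 := (hmem3 f).2 (by simp)
    -- general tightness with two pairs added to U3
    have tight2 : ∀ p1 q1 p2 q2 v y z : V, PM G (insert p1 (insert q1 (insert p2 (insert q2 U3)))) →
        (∀ w, (w = x ∨ w = a ∨ w = b ∨ w = c ∨ w = d ∨ w = e ∨ w = f) ∧
          (w ≠ p1 ∧ w ≠ q1 ∧ w ≠ p2 ∧ w ≠ q2) ↔ w = v ∨ w = y ∨ w = z) →
        v ≠ y → y ≠ z → v ≠ z → ¬ G.Adj y z → ¬ G.Adj v y → ¬ G.Adj v z := by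
      intro p1 q1 p2 q2 v y z hpm hw h1 h2 h3 h4 h5
      refine tight v y z h1 h2 h3 h4 _ hpm ?_ h5
      intro w
      rw [← hw w, ← hmem3 w]
      simp only [Finset.mem_insert, not_or]
      tauto
    have mk : ∀ p1 q1 p2 q2 : V, p1 ≠ q1 → p1 ≠ p2 → p1 ≠ q2 → q1 ≠ p2 → q1 ≠ q2 → p2 ≠ q2 →
        p1 ∉ U3 → q1 ∉ U3 → p2 ∉ U3 → q2 ∉ U3 → ¬ G.Adj p1 q1 → ¬ G.Adj p2 q2 →
        PM G (insert p1 (insert q1 (insert p2 (insert q2 U3)))) := by
      intro p1 q1 p2 q2 h1 h2 h3 h4 h5 h6 h7 h8 h9 h10 h11 h12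
      refine PM.add p1 q1 _ ?_ ?_ h1 h11 (PM.add p2 q2 _ h9 h10 h6 h12 hp3)
      · simp [h2, h3, h7]
      · simp [h4, h5, h8]
    by_cases hxe : G.Adj x e
    · -- case II
      have hec' : ¬ G.Adj e c := ht e x c hxe.symm hxc
      have hxf : G.Adj x f := by
        by_contra hn
        refine tight2 a b c d x f e (mk a b c d hba.symm hca.symm hda.symm hcb.symm hdb.symm
          hdc.symm na nb nc nd habadj hcdadj) ?_ hfx.symm hfe hex.symm (fun k => hefadj k.symm) hn hxe
        intro w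
        constructor
        · rintro ⟨h1 | h1 | h1 | h1 | h1 | h1 | h1, h2⟩ <;> tauto
        · rintro (rfl | rfl | rfl)
          · exact ⟨by simp, hax.symm, hbx.symm, hcx.symm, hdx.symm⟩
          · exact ⟨by simp, hfa, hfb, hfc, hfd⟩
          · exact ⟨by simp, hea, heb, hec, hed⟩
      have hdf : ¬ G.Adj d f := ht d x f hxd.symm hxf
      -- match x b, d f ; missing e, pair (c, a)
      refine tight2 x b d f e c a (mk x b d f hbx.symm hdx.symm hfx.symm hdb.symm hfb.symm
        hfd.symm nx nb nd nf hxb hdf) ?_ hec hca hea (fun k => hac k.symm) hec' hae.symm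
      intro w
      constructor
      · rintro ⟨h1 | h1 | h1 | h1 | h1 | h1 | h1, h2⟩ <;> tauto
      · rintro (rfl | rfl | rfl)
        · exact ⟨by simp, hex, heb, hed, hfe.symm⟩
        · exact ⟨by simp, hcx, hcb, hdc.symm, hfc.symm⟩
        · exact ⟨by simp, hax, hba.symm, hda.symm, hfa.symm⟩
    · -- case I
      have hxf : ¬ G.Adj x f := by
        refine tight2 a b c d x e f (mk a b c d hba.symm hca.symm hda.symm hcb.symm hdb.symm
          hdc.symm na nb nc nd habadj hcdadj) ?_ hex.symm hfe.symm hfx.symm hefadj hxe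
        intro w
        constructor
        · rintro ⟨h1 | h1 | h1 | h1 | h1 | h1 | h1, h2⟩ <;> tauto
        · rintro (rfl | rfl | rfl)
          · exact ⟨by simp, hax.symm, hbx.symm, hcx.symm, hdx.symm⟩
          · exact ⟨by simp, hea, heb, hec, hed⟩
          · exact ⟨by simp, hfa, hfb, hfc, hfd⟩
      -- a f adjacent : missing a, pairs (x,b),(c,d), pair (f,e)
      have haf : G.Adj a f := by
        by_contra hn
        refine tight2 x b c d a f e (mk x b c d hbx.symm hcx.symm hdx.symm hcb.symm hdb.symm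
          hdc.symm nx nb nc nd hxb hcdadj) ?_ hfa.symm hfe hea.symm (fun k => hefadj k.symm) hn hae
        intro w
        constructor
        · rintro ⟨h1 | h1 | h1 | h1 | h1 | h1 | h1, h2⟩ <;> tauto
        · rintro (rfl | rfl | rfl)
          · exact ⟨by simp, hax, hba.symm, hca.symm, hda.symm⟩
          · exact ⟨by simp, hfx, hfb, hfc, hfd⟩
          · exact ⟨by simp, hex, heb, hec, hed⟩
      -- missing f: pairs (x,e),(c,d), pair (b,a): Adj f b
      have hfb' : G.Adj f b := by
        by_contra hn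
        refine tight2 x e c d f b a (mk x e c d hex.symm hcx.symm hdx.symm hec hed
          hdc.symm nx ne nc nd hxe hcdadj) ?_ hfb hba hfa (fun k => habadj k.symm) hn haf.symm
        intro w
        constructor
        · rintro ⟨h1 | h1 | h1 | h1 | h1 | h1 | h1, h2⟩ <;> tauto
        · rintro (rfl | rfl | rfl)
          · exact ⟨by simp, hfx, hfe, hfc, hfd⟩
          · exact ⟨by simp, hbx, heb.symm, hcb.symm, hdb.symm⟩
          · exact ⟨by simp, hax, hea.symm, hca.symm, hda.symm⟩
      -- missing e: pairs (x,f),(c,d), pair (b,a): Adj e b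
      have heb' : G.Adj e b := by
        by_contra hn
        refine tight2 x f c d e b a (mk x f c d hfx.symm hcx.symm hdx.symm hfc hfd
          hdc.symm nx nf nc nd hxf hcdadj) ?_ heb hba hea (fun k => habadj k.symm) hn hae.symm
        intro w
        constructor
        · rintro ⟨h1 | h1 | h1 | h1 | h1 | h1 | h1, h2⟩ <;> tauto
        · rintro (rfl | rfl | rfl)
          · exact ⟨by simp, hex, hfe.symm, hec, hed⟩
          · exact ⟨by simp, hbx, hfb.symm, hcb.symm, hdb.symm⟩
          · exact ⟨by simp, hax, hfa.symm, hca.symm, hda.symm⟩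
      have hec' : ¬ G.Adj e c := ht e b c heb' hcbadj.symm
      -- missing d: pairs (a,b),(e,c), pair (f,x): Adj d f
      have hdf : G.Adj d f := by
        by_contra hn
        refine tight2 a b e c d f x (mk a b e c hba.symm hea.symm hca.symm heb.symm hcb.symm
          hec na nb ne nc habadj hec') ?_ hfd.symm hfx hdx (fun k => hxf k.symm) hn hxd.symm
        intro w
        constructor
        · rintro ⟨h1 | h1 | h1 | h1 | h1 | h1 | h1, h2⟩ <;> tauto
        · rintro (rfl | rfl | rfl)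
          · exact ⟨by simp, hda, hdb, hed.symm, hdc⟩
          · exact ⟨by simp, hfa, hfb, hfe, hfc⟩
          · exact ⟨by simp, hax.symm, hbx.symm, hex.symm, hcx.symm⟩
      exact ht d f b hdf hfb' hdbadj

/-- **Main lemma.** -/
theorem UO.completeBipartite (h : UO G) (ht : TF G) (hp : 2 ≤ Fintype.card V) : CB G := by
  obtain ⟨U, hU, hmax⟩ := exists_max_pm G
  have : Nonempty V := Fintype.card_pos_iff.mp (by omega)
  by_cases hUu : U = univ
  · exact absurd (hUu ▸ hU) h.no_pm
  · obtain ⟨x, hx⟩ : ∃ x, x ∉ U := by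
      by_contra hc
      push Not at hc
      exact hUu (by ext v; simp [hc v])
    by_cases h2 : ∃ y, y ∉ U ∧ y ≠ x
    · obtain ⟨y, hy, hyx⟩ := h2
      exact two_unmatched ht hU hmax hx hy hyx.symm
    · push Not at h2
      exact one_unmatched h ht hp hU (x := x) fun v => ⟨fun hv => h2 v hv, fun hv => hv ▸ hx⟩

end Pool.Agent.Q296.TC
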