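import Pool.Agent.Q296.TC.Far

/-!
# The inequality for two disjoint sets, and graphs without induced cycles of length 4, 5, 6
-/

namespace Pool.Agent.Q296.TC

set_option linter.unusedSectionVars false

open Finset

variable {V : Type*} [Fintype V] [DecidableEq V] {G : SimpleGraph V} [DecidableRel G.Adj]

/-- the inequality for two disjoint sets -/
theorem UO.two_sets (h : UO G) {X Y : Finset V} (hX : X.Nonempty) (hY : Y.Nonempty)
    (hd : Disjoint X Y) :
    pp V * ((Y.card : ℤ) ^ 2 * e2 G X + (X.card : ℤ) ^ 2 * e2 G Y)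
      < (X.card : ℤ) * Y.card * (2 * pp V * (∑ x ∈ X, ∑ y ∈ Y, A G x y) + e2 G univ) := by
  obtain ⟨u, hu⟩ := hX
  obtain ⟨v, hv⟩ := hY
  have hdisj : ∀ w, w ∈ X → w ∉ Y := fun w hw hw' => Finset.disjoint_left.mp hd hw hw'
  have huv : u ≠ v := fun e => hdisj u hu (e ▸ hv)
  have hp : 2 ≤ Fintype.card V := by
    have := Finset.card_le_univ ({u, v} : Finset V)
    rwa [Finset.card_pair huv] at this
  set α : ℤ := (X.card : ℤ) with hα
  set β : ℤ := (Y.card : ℤ) with hβ
  set W : ℤ := ∑ x ∈ X, ∑ y ∈ Y, A G x y with hW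
  have hαpos : 0 < α := by
    rw [hα]; exact_mod_cast Finset.card_pos.mpr ⟨u, hu⟩
  have hβpos : 0 < β := by
    rw [hβ]; exact_mod_cast Finset.card_pos.mpr ⟨v, hv⟩
  let c : V → ℤ := fun w => if w ∈ X then β else 0
  let c' : V → ℤ := fun w => if w ∈ Y then α else 0
  let y : V → ℤ := fun w => α + (c w - c' w)
  have hyu : ∀ w ∈ X, y w = α + β := by
    intro w hw; simp [y, c, c', hw, hdisj w hw]
  have hyv : ∀ w ∈ Y, y w = 0 := by
    intro w hw
    have : w ∉ X := fun hw' => hdisj w hw' hw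
    simp [y, c, c', hw, this]
  have hyr : ∀ w, w ∉ X → w ∉ Y → y w = α := by
    intro w hw hw'; simp [y, c, c', hw, hw']
  -- value of Q y
  have hQy : Q G y = pp V ^ 2 * (β ^ 2 * e2 G X + α ^ 2 * e2 G Y - 2 * α * β * W) := by
    have e1 : Q G y = Q G (fun w => c w - c' w) := Q_const_add α _
    have e2' : Q G (fun w => c w - c' w) = Q G c + Q G c' - 2 * ∑ v ∈ X, ∑ w ∈ Y, q G v w * (β * α) := by
      unfold Q
      have : ∀ v, ∑ w, q G v w * ((c v - c' v) * (c w - c' w))
          = ∑ w, q G v w * (c v * c w) + ∑ w, q G v w * (c' v * c' w)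
            - ∑ w, q G v w * (c v * c' w) - ∑ w, q G v w * (c' v * c w) := by
        intro v
        rw [← Finset.sum_add_distrib, ← Finset.sum_sub_distrib, ← Finset.sum_sub_distrib]
        refine Finset.sum_congr rfl fun w _ => ?_
        ring
      simp_rw [this]
      rw [Finset.sum_sub_distrib, Finset.sum_sub_distrib, Finset.sum_add_distrib]
      have s1 : ∑ v, ∑ w, q G v w * (c v * c' w) = ∑ v ∈ X, ∑ w ∈ Y, q G v w * (β * α) := by
        have : ∀ v, ∑ w, q G v w * (c v * c' w) = if v ∈ X then ∑ w ∈ Y, q G v w * (β * α) else 0 := by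
          intro v
          by_cases hv : v ∈ X
          · rw [if_pos hv]
            have : ∀ w, q G v w * (c v * c' w) = if w ∈ Y then q G v w * (β * α) else 0 := by
              intro w
              by_cases hw : w ∈ Y <;> simp [c, c', hv, hw]
            simp_rw [this]
            rw [← Finset.sum_filter]
            congr 1; ext w; simp
          · rw [if_neg hv]; simp [c, hv]
        simp_rw [this]
        rw [← Finset.sum_filter]
        congr 1; ext w; simp
      have s2 : ∑ v, ∑ w, q G v w * (c' v * c w) = ∑ v ∈ X, ∑ w ∈ Y, q G v w * (β * α) := by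
        rw [Finset.sum_comm, ← s1]
        refine Finset.sum_congr rfl fun v _ => Finset.sum_congr rfl fun w _ => ?_
        rw [q_symm G w v]; ring
      rw [s1, s2]
      ring
    have e3 : ∑ v ∈ X, ∑ w ∈ Y, q G v w * (β * α)
        = (β * α) * (pp V ^ 2 * W - pp V * (β * ∑ v ∈ X, dg G v + α * ∑ w ∈ Y, dg G w)
          + α * β * e2 G univ) := by
      have : ∀ v ∈ X, ∑ w ∈ Y, q G v w * (β * α)
          = (β * α) * (pp V ^ 2 * ∑ w ∈ Y, A G v w
            - pp V * (β * dg G v + ∑ w ∈ Y, dg G w) + β * e2 G univ) := by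
        intro v _
        rw [← Finset.sum_mul]
        have : ∑ w ∈ Y, q G v w = pp V ^ 2 * ∑ w ∈ Y, A G v w
            - pp V * (β * dg G v + ∑ w ∈ Y, dg G w) + β * e2 G univ := by
          unfold q
          rw [Finset.sum_add_distrib, Finset.sum_sub_distrib, ← Finset.mul_sum, ← Finset.mul_sum,
            Finset.sum_add_distrib]
          simp only [Finset.sum_const, nsmul_eq_mul]
          rw [← hβ]
        rw [this]; ring
      rw [Finset.sum_congr rfl this, ← Finset.mul_sum, Finset.sum_add_distrib,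
        Finset.sum_sub_distrib, ← Finset.mul_sum, ← Finset.mul_sum,
        Finset.sum_add_distrib, ← Finset.mul_sum]
      simp only [Finset.sum_const, nsmul_eq_mul]
      rw [← hα, ← hW]
      ring
    have e4 : Q G c = _ := Q_ind (G := G) X β
    have e5 : Q G c' = _ := Q_ind (G := G) Y α
    rw [e1, e2', e3, e4, e5, ← hα, ← hβ]
    ring
  -- rounding
  obtain ⟨y', hy1, hy2, hy3⟩ := round (G := G) (α + β) (univ.filter fun w => w ∉ X ∧ w ∉ Y) y (by
    intro w hw
    obtain ⟨hw1, hw2⟩ := (Finset.mem_filter.mp hw).2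
    rw [hyr w hw1 hw2]
    constructor <;> linarith)
  have hy'u : ∀ w ∈ X, y' w = α + β := fun w hw => by
    rw [hy1 w (by simp [hw]), hyu w hw]
  have hy'v : ∀ w ∈ Y, y' w = 0 := fun w hw => by
    rw [hy1 w (by simp [hw]), hyv w hw]
  have hy'all : ∀ w, y' w = 0 ∨ y' w = α + β := by
    intro w
    by_cases hw : w ∈ X
    · exact Or.inr (hy'u w hw)
    · by_cases hw' : w ∈ Y
      · exact Or.inl (hy'v w hw')
      · exact hy2 w (by simp [hw, hw'])
  set S := univ.filter fun w => y' w = α + β with hS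
  have hNne : α + β ≠ 0 := by linarith
  have hy'S : y' = fun w => if w ∈ S then α + β else 0 := by
    funext w
    by_cases hw : y' w = α + β
    · have : w ∈ S := by simp [hS, hw]
      rw [if_pos this, hw]
    · have : w ∉ S := by simp [hS, hw]
      rw [if_neg this]
      exact (hy'all w).resolve_right hw
  have huS : u ∈ S := by simp [hS, hy'u u hu]
  have hvS : v ∈ Sᶜ := by
    simp only [hS, Finset.mem_compl, Finset.mem_filter, Finset.mem_univ, true_and]
    rw [hy'v v hv]
    exact fun h => hNne h.symm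
  have hneg := h.set_neg S ⟨u, huS⟩ ⟨v, hvS⟩
  have hPhi' : 0 < Phi G (α + β) y' := by
    unfold Phi
    have z1 : ∑ w, y' w * (α + β - y' w) * (2 * pp V * dg G w - e2 G univ) = 0 := by
      refine Finset.sum_eq_zero fun w _ => ?_
      rcases hy'all w with e | e <;> rw [e] <;> ring
    rw [z1, hy'S, Q_ind]
    have : 0 < (α + β) ^ 2 := pow_pos (by linarith) 2
    nlinarith
  -- upper bound
  have hD : ∀ w, 0 < 2 * pp V * dg G w - e2 G univ := fun w => by linarith [h.vertex hp w]
  have hPhi : Phi G (α + β) y ≤ - (pp V ^ 2 * (β ^ 2 * e2 G X + α ^ 2 * e2 G Y - 2 * α * β * W))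
      + α * β * (pp V * e2 G univ) := by
    unfold Phi
    rw [hQy]
    have : ∑ w, y w * (α + β - y w) * (2 * pp V * dg G w - e2 G univ)
        ≤ ∑ w, (α * β) * (2 * pp V * dg G w - e2 G univ) := by
      refine Finset.sum_le_sum fun w _ => ?_
      refine mul_le_mul_of_nonneg_right ?_ (hD w).le
      by_cases hw : w ∈ X
      · rw [hyu w hw]; nlinarith [mul_pos hαpos hβpos]
      · by_cases hw' : w ∈ Y
        · rw [hyv w hw']; nlinarith [mul_pos hαpos hβpos]
        · rw [hyr w hw hw']; nlinarith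
    have t : ∑ w : V, (α * β) * (2 * pp V * dg G w - e2 G univ) = α * β * (pp V * e2 G univ) := by
      rw [← Finset.mul_sum, Finset.sum_sub_distrib, ← Finset.mul_sum, sum_dg]
      simp only [Finset.sum_const, Finset.card_univ, nsmul_eq_mul]
      unfold pp; ring
    linarith
  have hpp : 0 < pp V := by unfold pp; exact_mod_cast (by omega : 0 < Fintype.card V)
  have hfin : pp V * (pp V * (β ^ 2 * e2 G X + α ^ 2 * e2 G Y))
      < pp V * (α * β * (2 * pp V * W + e2 G univ)) := by
    linarith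
  exact lt_of_mul_lt_mul_left hfin hpp.le

theorem e2_clique {S : Finset V} (hS : ∀ x ∈ S, ∀ y ∈ S, x ≠ y → G.Adj x y) :
    e2 G S = (S.card : ℤ) * ((S.card : ℤ) - 1) := by
  unfold e2
  have : ∀ x ∈ S, ∑ y ∈ S, A G x y = (S.card : ℤ) - 1 := by
    intro x hx
    rw [← Finset.add_sum_erase _ _ hx, A_self]
    have : ∀ y ∈ S.erase x, A G x y = 1 := by
      intro y hy
      obtain ⟨hyx, hy⟩ := Finset.mem_erase.mp hy
      unfold A; rw [if_pos (hS x hx y hy hyx.symm)]
    rw [Finset.sum_congr rfl this, Finset.sum_const, Finset.card_erase_of_mem hx, nsmul_eq_mul]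
    have := Finset.card_pos.mpr ⟨x, hx⟩
    push_cast [Nat.cast_sub (show 1 ≤ S.card by omega)]
    ring
  rw [Finset.sum_congr rfl this, Finset.sum_const, nsmul_eq_mul]

theorem e2_mono {S T : Finset V} (h : S ⊆ T) : e2 G S ≤ e2 G T := by
  unfold e2
  calc ∑ x ∈ S, ∑ y ∈ S, A G x y ≤ ∑ x ∈ S, ∑ y ∈ T, A G x y :=
        Finset.sum_le_sum fun x _ =>
          Finset.sum_le_sum_of_subset_of_nonneg h fun y _ _ => A_nonneg G x y
    _ ≤ ∑ x ∈ T, ∑ y ∈ T, A G x y :=
        Finset.sum_le_sum_of_subset_of_nonneg h fun x _ _ =>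
          Finset.sum_nonneg fun y _ => A_nonneg G x y

/-- open neighbourhood -/
def No (G : SimpleGraph V) [DecidableRel G.Adj] (u : V) : Finset V :=
  univ.filter fun w => G.Adj u w

theorem mem_No {u w : V} : w ∈ No G u ↔ G.Adj u w := by unfold No; simp

theorem card_No (u : V) : ((No G u).card : ℤ) = dg G u := by
  unfold No dg A
  rw [Finset.sum_boole]

theorem e2_Nb_eq (u : V) : e2 G (Nb G u) = 2 * dg G u + e2 G (No G u) := by
  have hn : u ∉ No G u := by rw [mem_No]; exact G.loopless.irrefl u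
  have hNb : Nb G u = insert u (No G u) := rfl
  have h1 : ∑ y ∈ No G u, A G u y = dg G u := by
    unfold dg
    refine Finset.sum_subset (Finset.subset_univ _) fun y _ hy => ?_
    unfold A; rw [if_neg]; intro h; exact hy (mem_No.2 h)
  unfold e2
  rw [hNb, Finset.sum_insert hn, Finset.sum_insert hn, A_self, h1]
  have h2 : ∑ x ∈ No G u, ∑ y ∈ insert u (No G u), A G x y
      = dg G u + ∑ x ∈ No G u, ∑ y ∈ No G u, A G x y := by
    have : ∀ x ∈ No G u, ∑ y ∈ insert u (No G u), A G x y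
        = A G u x + ∑ y ∈ No G u, A G x y := by
      intro x _
      rw [Finset.sum_insert hn, A_symm G x u]
    rw [Finset.sum_congr rfl this, Finset.sum_add_distrib, h1]
  rw [h2]
  ring

/-- graphs without induced cycles of length 4, 5, 6, in first-order form -/
structure NoHole (G : SimpleGraph V) : Prop where
  four : ∀ a b c d : V, G.Adj a b → G.Adj b c → G.Adj c d → G.Adj d a → a ≠ c → b ≠ d →
    G.Adj a c ∨ G.Adj b d
  five : ∀ a b c d e : V, G.Adj a b → G.Adj b c → G.Adj c d → G.Adj d e → G.Adj e a →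
    a ≠ c → a ≠ d → b ≠ d → b ≠ e → c ≠ e →
    G.Adj a c ∨ G.Adj a d ∨ G.Adj b d ∨ G.Adj b e ∨ G.Adj c e
  six : ∀ a b c d e f : V, G.Adj a b → G.Adj b c → G.Adj c d → G.Adj d e → G.Adj e f → G.Adj f a →
    a ≠ c → a ≠ d → a ≠ e → b ≠ d → b ≠ e → b ≠ f → c ≠ e → c ≠ f → d ≠ f →
    G.Adj a c ∨ G.Adj a d ∨ G.Adj a e ∨ G.Adj b d ∨ G.Adj b e ∨ G.Adj b f ∨ G.Adj c e ∨
      G.Adj c f ∨ G.Adj d f

theorem UO.no_far_of_noHole (h : UO G) (hG : NoHole G) {u v : V} (huv : u ≠ v)
    (h1 : ¬ G.Adj u v) (h2 : ∀ w, G.Adj u w → ¬ G.Adj w v) : False := by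
  have hp : 2 ≤ Fintype.card V := by
    have := Finset.card_le_univ ({u, v} : Finset V)
    rwa [Finset.card_pair huv] at this
  by_cases hx : ∃ x, G.Adj v x ∧ ∃ w, G.Adj u w ∧ G.Adj x w
  swap
  · push Not at hx
    exact h.no_far huv h1 h2 fun w w' a b c => hx w' c.symm w a b.symm
  -- the attachment set
  set B := No G u with hB
  set K := (No G v).filter fun x => ∃ w ∈ B, G.Adj x w with hK
  have hKmem : ∀ x, x ∈ K ↔ G.Adj v x ∧ ∃ w, G.Adj u w ∧ G.Adj x w := by
    intro x; simp [hK, hB, mem_No]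
  have hKne : K.Nonempty := by obtain ⟨x, hx⟩ := hx; exact ⟨x, (hKmem x).2 hx⟩
  have huK : ∀ x, x ∈ K → ¬ G.Adj u x := fun x hx hux => h2 x hux ((hKmem x).1 hx).1.symm
  have huxne : ∀ x, x ∈ K → u ≠ x := fun x hx e => h1 (e ▸ ((hKmem x).1 hx).1.symm)
  have hwv : ∀ w, G.Adj u w → ¬ G.Adj v w := fun w hw h' => h2 w hw h'.symm
  have hwvne : ∀ w, G.Adj u w → v ≠ w := fun w hw e => h1 (e ▸ hw)
  -- K is a clique
  have hKcl : ∀ x ∈ K, ∀ x' ∈ K, x ≠ x' → G.Adj x x' := by
    intro x hx x' hx' hne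
    by_contra hn
    obtain ⟨hvx, w, huw, hxw⟩ := (hKmem x).1 hx
    obtain ⟨hvx', w', huw', hxw'⟩ := (hKmem x').1 hx'
    -- no common neighbour in B
    have hcommon : ∀ z, G.Adj u z → G.Adj x z → ¬ G.Adj x' z := by
      intro z huz hxz hx'z
      rcases hG.four v x z x' hvx hxz hx'z.symm hvx'.symm (hwvne z huz) hne with h' | h'
      · exact hwv z huz h'
      · exact hn h'
    have hww' : w ≠ w' := fun e => hcommon w huw hxw (e ▸ hxw')
    have hxw'n : ¬ G.Adj x w' := fun h' => hcommon w' huw' h' hxw'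
    have hx'wn : ¬ G.Adj x' w := fun h' => hcommon w huw hxw h'
    have nx : x ≠ w' := fun e => huK x hx (e ▸ huw')
    have nx' : x' ≠ w := fun e => huK x' hx' (e ▸ huw)
    by_cases hadj : G.Adj w w'
    · rcases hG.five v x w w' x' hvx hxw hadj hxw'.symm hvx'.symm (hwvne w huw) (hwvne w' huw')
        nx hne nx'.symm with h' | h' | h' | h' | h'
      · exact hwv w huw h'
      · exact hwv w' huw' h'
      · exact hxw'n h'
      · exact hn h'
      · exact hx'wn h'.symm
    · rcases hG.six v x w u w' x' hvx hxw huw.symm huw' hxw'.symm hvx'.symm (hwvne w huw)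
        huv.symm (hwvne w' huw') (huxne x hx).symm nx hne hww' nx'.symm (huxne x' hx') with
        h' | h' | h' | h' | h' | h' | h' | h' | h'
      · exact hwv w huw h'
      · exact h1 h'.symm
      · exact hwv w' huw' h'
      · exact huK x hx h'.symm
      · exact hxw'n h'
      · exact hn h'
      · exact hadj h'
      · exact hx'wn h'.symm
      · exact huK x' hx' h'
  -- largest neighbourhood in B
  obtain ⟨x0, hx0, hmax⟩ := Finset.exists_max_image K (fun x => (B.filter fun w => G.Adj x w).card) hKne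
  set M := B.filter fun w => G.Adj x0 w with hM
  have hMcl : ∀ w ∈ M, ∀ w' ∈ M, w ≠ w' → G.Adj w w' := by
    intro w hw w' hw' hne
    simp only [hM, hB, Finset.mem_filter, mem_No] at hw hw'
    rcases hG.four u w x0 w' hw.1 hw.2.symm hw'.2 hw'.1.symm (huxne x0 hx0) hne with h' | h'
    · exact absurd h' (huK x0 hx0)
    · exact h'
  have eM := e2_clique hMcl
  have eK := e2_clique hKcl
  have sM : e2 G M ≤ e2 G (No G u) := e2_mono (Finset.filter_subset _ _)
  have sK : e2 G K ≤ e2 G (No G v) := e2_mono (Finset.filter_subset _ _)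
  have cM : (M.card : ℤ) ≤ dg G u := by
    rw [← card_No]; exact_mod_cast Finset.card_le_card (Finset.filter_subset _ _)
  have cK : (K.card : ℤ) ≤ dg G v := by
    rw [← card_No]; exact_mod_cast Finset.card_le_card (Finset.filter_subset _ _)
  have hdisj : Disjoint (Nb G u) (Nb G v) := by
    rw [Finset.disjoint_left]
    intro w hw hw'
    rcases mem_Nb.1 hw with rfl | hw <;> rcases mem_Nb.1 hw' with e | hw'
    · exact huv e
    · exact h1 hw'.symm
    · exact h1 (e ▸ hw)
    · exact h2 w hw hw'.symm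
  -- cross edges
  have hW : ∑ x ∈ Nb G u, ∑ y ∈ Nb G v, A G x y ≤ (K.card : ℤ) * M.card := by
    rw [Finset.sum_comm]
    have hz : ∀ y ∈ Nb G v, y ∉ K → ∑ x ∈ Nb G u, A G x y = 0 := by
      intro y hy hyK
      refine Finset.sum_eq_zero fun z hzu => ?_
      unfold A
      rw [if_neg]
      intro hadj
      rcases mem_Nb.1 hy with hyv | hy
      · rw [hyv] at hadj
        rcases mem_Nb.1 hzu with hzu' | hzu'
        · exact h1 (hzu' ▸ hadj)
        · exact h2 z hzu' hadj
      · rcases mem_Nb.1 hzu with hzu' | hzu'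
        · rw [hzu'] at hadj
          exact h2 y hadj hy.symm
        · exact hyK ((hKmem y).2 ⟨hy, z, hzu', hadj.symm⟩)
    have hKsub : K ⊆ Nb G v := by
      intro y hy; exact mem_Nb.2 (Or.inr ((hKmem y).1 hy).1)
    rw [← Finset.sum_subset hKsub hz]
    have hb : ∀ y ∈ K, ∑ x ∈ Nb G u, A G x y ≤ (M.card : ℤ) := by
      intro y hy
      have : ∑ x ∈ Nb G u, A G x y = ((B.filter fun w => G.Adj y w).card : ℤ) := by
        have hNb : Nb G u = insert u (No G u) := rfl
        have hn : u ∉ No G u := by rw [mem_No]; exact G.loopless.irrefl u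
        rw [hNb, Finset.sum_insert hn]
        have : A G u y = 0 := by unfold A; rw [if_neg (huK y hy)]
        rw [this, zero_add]
        unfold A
        rw [Finset.sum_boole]
        congr 2
        ext w; simp only [Finset.mem_filter]
        constructor
        · rintro ⟨a, b⟩; exact ⟨a, b.symm⟩
        · rintro ⟨a, b⟩; exact ⟨a, b.symm⟩
      rw [this]
      exact_mod_cast hmax y hy
    calc ∑ y ∈ K, ∑ x ∈ Nb G u, A G x y ≤ ∑ _y ∈ K, (M.card : ℤ) := Finset.sum_le_sum hb
      _ = _ := by rw [Finset.sum_const, nsmul_eq_mul]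
  have key := h.two_sets (X := Nb G u) (Y := Nb G v) ⟨u, mem_Nb.2 (Or.inl rfl)⟩
    ⟨v, mem_Nb.2 (Or.inl rfl)⟩ hdisj
  rw [e2_Nb_eq, e2_Nb_eq] at key
  have vu := h.vertex hp u
  have vv := h.vertex hp v
  have hpp : 0 < pp V := by unfold pp; exact_mod_cast (by omega : 0 < Fintype.card V)
  have hαpos : (0 : ℤ) < (Nb G u).card := by
    exact_mod_cast Finset.card_pos.mpr ⟨u, mem_Nb.2 (Or.inl rfl)⟩
  have hβpos : (0 : ℤ) < (Nb G v).card := by
    exact_mod_cast Finset.card_pos.mpr ⟨v, mem_Nb.2 (Or.inl rfl)⟩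
  have hm0 : (0 : ℤ) ≤ (M.card : ℤ) := Int.natCast_nonneg _
  have hk0 : (0 : ℤ) ≤ (K.card : ℤ) := Int.natCast_nonneg _
  generalize ((Nb G u).card : ℤ) = α at *
  generalize ((Nb G v).card : ℤ) = β at *
  generalize (∑ x ∈ Nb G u, ∑ y ∈ Nb G v, A G x y) = W at *
  generalize (K.card : ℤ) = k at *
  generalize (M.card : ℤ) = m at *
  generalize dg G u = b at *
  generalize dg G v = a at *
  generalize pp V = p at *
  generalize e2 G univ = E at *
  have hab : 0 < α * β := mul_pos hαpos hβpos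
  -- lower bounds
  have l1 : m ^ 2 + b ≤ 2 * b + e2 G (No G u) := by nlinarith
  have l2 : k ^ 2 + a ≤ 2 * a + e2 G (No G v) := by nlinarith
  have l3 : β ^ 2 * (m ^ 2 + b) + α ^ 2 * (k ^ 2 + a)
      ≤ β ^ 2 * (2 * b + e2 G (No G u)) + α ^ 2 * (2 * a + e2 G (No G v)) :=
    add_le_add (mul_le_mul_of_nonneg_left l1 (sq_nonneg β))
      (mul_le_mul_of_nonneg_left l2 (sq_nonneg α))
  have l4 : 2 * (α * β) * (k * m) ≤ β ^ 2 * m ^ 2 + α ^ 2 * k ^ 2 := by
    nlinarith [sq_nonneg (β * m - α * k)]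
  have l5 : α * β * W ≤ α * β * (k * m) := mul_le_mul_of_nonneg_left hW hab.le
  have l6 : (α * β) * E ≤ p * (β ^ 2 * b + α ^ 2 * a) := by
    have t1 : β ^ 2 * E ≤ β ^ 2 * (2 * p * b) := mul_le_mul_of_nonneg_left vu.le (sq_nonneg β)
    have t2 : α ^ 2 * E ≤ α ^ 2 * (2 * p * a) := mul_le_mul_of_nonneg_left vv.le (sq_nonneg α)
    have t3 : 0 ≤ E ∨ E ≤ 0 := le_total 0 E
    rcases t3 with t3 | t3
    · have t4 : 2 * (α * β) * E ≤ (α ^ 2 + β ^ 2) * E :=
        mul_le_mul_of_nonneg_right (by nlinarith [sq_nonneg (α - β)]) t3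
      nlinarith
    · have b0 : 0 ≤ b := le_trans hm0 cM
      have a0 : 0 ≤ a := le_trans hk0 cK
      have : (α * β) * E ≤ 0 := mul_nonpos_of_nonneg_of_nonpos hab.le t3
      have : 0 ≤ p * (β ^ 2 * b + α ^ 2 * a) := by positivity
      linarith
  have l7 : p * (β ^ 2 * (m ^ 2 + b) + α ^ 2 * (k ^ 2 + a))
      ≤ p * (β ^ 2 * (2 * b + e2 G (No G u)) + α ^ 2 * (2 * a + e2 G (No G v))) :=
    mul_le_mul_of_nonneg_left l3 hpp.le
  have l8 : p * (2 * (α * β) * (k * m)) ≤ p * (β ^ 2 * m ^ 2 + α ^ 2 * k ^ 2) :=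
    mul_le_mul_of_nonneg_left l4 hpp.le
  have l9 : p * (α * β * W) ≤ p * (α * β * (k * m)) := mul_le_mul_of_nonneg_left l5 hpp.le
  nlinarith

end Pool.Agent.Q296.TC
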